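import Pool.Agent.TH783.HA.Basic

set_option autoImplicit false

/-! A structure built by adding points one at a time. -/

namespace Pool.Agent.TH783.HA

open Set

variable {a : ℕ → ℕ} {M : St a ℕ}

/-- a structure on `ℕ`, with a set `P`: the point `N` realizes the type `w N` over the finite set
given by `D N` and is free from the other points below `N` -/
structure Tw (M R : St a ℕ) (P : ℕ → Prop) (D : ℕ → Finset (ℕ × ℕ)) (w : ℕ → ℕ) : Prop where
  lt : ∀ N, ∀ p ∈ D N, p.1 < N ∧ p.2 ≠ w N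
  pi : ∀ N, PI M R (insert (N, w N) (D N))
  free : ∀ (i : ℕ) (v : Fin (a i) → ℕ) (N : ℕ), (∀ j, v j ≤ N) → (∃ j, v j = N) → R i v →
    ∀ j, v j = N ∨ ∃ p ∈ D N, p.1 = v j
  triv : ∀ N, P N → D N = ∅
  pt : ∀ x N, ∃ k ≥ N, P k ∧ w k = x
  gen : ∀ (F : Finset (ℕ × ℕ)) (x N : ℕ), PI M R F → (∀ p ∈ F, p.2 ≠ x) →
    ∃ k ≥ N, (∀ p ∈ F, p.1 < k) ∧ ¬ P k ∧ D k = F ∧ w k = x

namespace TwC

/-- codes of points -/
abbrev Code : Type := ℕ ⊕ (Finset (ℕ × ℕ) × ℕ)

theorem exists_en : ∃ en : ℕ → Code, ∀ c N, ∃ k ≥ N, en k = c := by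
  obtain ⟨g, hg⟩ := exists_surjective_nat Code
  refine ⟨fun k => g k.unpair.1, fun c N => ?_⟩
  obtain ⟨m, hm⟩ := hg c
  exact ⟨Nat.pair m N, Nat.right_le_pair m N, by simp [hm]⟩

open Classical in
/-- the part of the type over the earlier points -/
noncomputable def eff (M R : St a ℕ) (N : ℕ) : Code → Finset (ℕ × ℕ)
  | Sum.inl _ => ∅
  | Sum.inr c => if (∀ p ∈ c.1, p.1 < N ∧ p.2 ≠ c.2) ∧ PI M R c.1 then c.1 else ∅

/-- the element of `M` which gives the type -/
def wv : Code → ℕ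
  | Sum.inl x => x
  | Sum.inr c => c.2

open Classical in
/-- adding one point -/
noncomputable def step (M R : St a ℕ) (N : ℕ) (c : Code) : St a ℕ := fun i v =>
  if ∀ j, v j < N then R i v else
    ∃ u : Fin (a i) → ℕ × ℕ, (∀ j, u j ∈ insert (N, wv c) (eff M R N c)) ∧
      (∀ j, (u j).1 = v j) ∧ M i fun j => (u j).2

/-- the stages -/
noncomputable def Rs (M : St a ℕ) (en : ℕ → Code) : ℕ → St a ℕ
  | 0 => fun i _ => IsEmpty (Fin (a i)) ∧ M i fun _ => 0
  | N + 1 => step M (Rs M en N) N (en N)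

theorem rs_lt {en : ℕ → Code} {N N' : ℕ} (h : N ≤ N') {i : ℕ} {v : Fin (a i) → ℕ}
    (hv : ∀ j, v j < N) : Rs M en N' i v ↔ Rs M en N i v := by
  induction N' with
  | zero =>
    have : N = 0 := by omega
    rw [this]
  | succ N' ih =>
    rcases Nat.lt_or_ge N' N with h1 | h1
    · have : N = N' + 1 := by omega
      rw [this]
    · have h2 : ∀ j, v j < N' := fun j => lt_of_lt_of_le (hv j) h1
      show step M (Rs M en N') N' (en N') i v ↔ _
      unfold step
      rw [if_pos h2]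
      exact ih h1

/-- the union -/
def Ru (M : St a ℕ) (en : ℕ → Code) : St a ℕ := fun i v =>
  ∃ N, (∀ j, v j < N) ∧ Rs M en N i v

theorem ru_iff {en : ℕ → Code} {N i : ℕ} {v : Fin (a i) → ℕ} (hv : ∀ j, v j < N) :
    Ru M en i v ↔ Rs M en N i v := by
  constructor
  · rintro ⟨N', h1, h2⟩
    rcases le_total N N' with h | h
    · exact (rs_lt h hv).1 h2
    · exact (rs_lt h h1).2 h2
  · intro h
    exact ⟨N, hv, h⟩

theorem pi_congr {R R' : St a ℕ} {F : Finset (ℕ × ℕ)}
    (h : ∀ (i : ℕ) (v : Fin (a i) → ℕ), (∀ j, ∃ p ∈ F, p.1 = v j) → (R i v ↔ R' i v)) :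
    PI M R F ↔ PI M R' F := by
  unfold PI
  refine and_congr Iff.rfl (forall_congr' fun i => forall_congr' fun v => ?_)
  refine forall_congr' fun hv => ?_
  rw [h i _ fun j => ⟨v j, hv j, rfl⟩]

theorem pi_rs {en : ℕ → Code} {N : ℕ} {F : Finset (ℕ × ℕ)} (h : ∀ p ∈ F, p.1 < N) :
    PI M (Rs M en N) F ↔ PI M (Ru M en) F := by
  refine pi_congr fun i v hv => (ru_iff fun j => ?_).symm
  obtain ⟨p, hp, h1⟩ := hv j
  rw [← h1]
  exact h p hp

theorem pi_empty {en : ℕ → Code} : PI M (Ru M en) ∅ := by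
  have h0 : PI M (Rs M en 0) ∅ := by
    refine ⟨fun p hp => absurd hp (Finset.notMem_empty p), fun i v hv => ?_⟩
    have he : IsEmpty (Fin (a i)) := ⟨fun j => absurd (hv j) (Finset.notMem_empty _)⟩
    show (IsEmpty (Fin (a i)) ∧ M i fun _ => 0) ↔ _
    have h1 : (fun _ : Fin (a i) => 0) = fun j => (v j).2 := funext fun j => he.elim j
    rw [h1]
    exact ⟨fun h => h.2, fun h => ⟨he, h⟩⟩
  exact (pi_rs fun p hp => absurd hp (Finset.notMem_empty p)).1 h0

theorem eff_spec {en : ℕ → Code} (N : ℕ) :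
    (∀ p ∈ eff M (Rs M en N) N (en N), p.1 < N ∧ p.2 ≠ wv (en N)) ∧
      PI M (Ru M en) (eff M (Rs M en N) N (en N)) := by
  cases h : en N with
  | inl x => exact ⟨fun p hp => absurd hp (Finset.notMem_empty p), pi_empty⟩
  | inr c =>
    by_cases hc : (∀ p ∈ c.1, p.1 < N ∧ p.2 ≠ c.2) ∧ PI M (Rs M en N) c.1
    · have he : eff M (Rs M en N) N (Sum.inr c) = c.1 := if_pos hc
      rw [he]
      exact ⟨hc.1, (pi_rs fun p hp => (hc.1 p hp).1).1 hc.2⟩
    · have he : eff M (Rs M en N) N (Sum.inr c) = ∅ := if_neg hc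
      rw [he]
      exact ⟨fun p hp => absurd hp (Finset.notMem_empty p), pi_empty⟩

theorem ru_top {en : ℕ → Code} {N i : ℕ} {v : Fin (a i) → ℕ} (h1 : ∀ j, v j ≤ N)
    (h2 : ∃ j, v j = N) : Ru M en i v ↔
      ∃ u : Fin (a i) → ℕ × ℕ, (∀ j, u j ∈ insert (N, wv (en N)) (eff M (Rs M en N) N (en N))) ∧
      (∀ j, (u j).1 = v j) ∧ M i fun j => (u j).2 := by
  rw [ru_iff (N := N + 1) fun j => Nat.lt_succ_of_le (h1 j)]
  show step M (Rs M en N) N (en N) i v ↔ _
  unfold step
  rw [if_neg]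
  intro h
  obtain ⟨j, hj⟩ := h2
  have := h j
  omega

theorem exists_tw : ∃ (R : St a ℕ) (P : ℕ → Prop) (D : ℕ → Finset (ℕ × ℕ)) (w : ℕ → ℕ),
    Tw M R P D w := by
  classical
  obtain ⟨en, hen⟩ := exists_en
  refine ⟨Ru M en, fun N => ∃ x, en N = Sum.inl x, fun N => eff M (Rs M en N) N (en N),
    fun N => wv (en N), ?_⟩
  refine ⟨fun N => (eff_spec N).1, fun N => ?_, fun i v N h1 h2 h3 => ?_, ?_, ?_, ?_⟩
  · obtain ⟨h1, h2⟩ := eff_spec (M := M) (en := en) N
    have hinj : ∀ p ∈ insert (N, wv (en N)) (eff M (Rs M en N) N (en N)),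
        ∀ q ∈ insert (N, wv (en N)) (eff M (Rs M en N) N (en N)), (p.1 = q.1 ↔ p.2 = q.2) := by
      intro p hp q hq
      rw [Finset.mem_insert] at hp hq
      rcases hp with rfl | hp <;> rcases hq with rfl | hq
      · exact ⟨fun _ => rfl, fun _ => rfl⟩
      · have := h1 q hq
        exact ⟨fun h => absurd h (by omega), fun h => absurd h.symm this.2⟩
      · have := h1 p hp
        exact ⟨fun h => absurd h (by simp only; omega), fun h => absurd h this.2⟩
      · exact h2.1 p hp q hq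
    refine ⟨hinj, fun i v hv => ?_⟩
    by_cases hall : ∀ j, v j ∈ eff M (Rs M en N) N (en N)
    · exact h2.2 i v hall
    · push Not at hall
      obtain ⟨j0, hj0⟩ := hall
      have h3 : v j0 = (N, wv (en N)) := by
        have := hv j0
        rw [Finset.mem_insert] at this
        exact this.resolve_right hj0
      rw [ru_top (N := N)]
      · constructor
        · rintro ⟨u, hu1, hu2, hu3⟩
          have : (fun j => (u j).2) = fun j => (v j).2 := funext fun j =>
            (hinj _ (hu1 j) _ (hv j)).1 (hu2 j)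
          rwa [this] at hu3
        · intro h
          exact ⟨v, hv, fun _ => rfl, h⟩
      · intro j
        have := hv j
        rw [Finset.mem_insert] at this
        rcases this with h | h
        · rw [h]
        · exact (h1 _ h).1.le
      · exact ⟨j0, by rw [h3]⟩
  · rw [ru_top h1 h2] at h3
    obtain ⟨u, hu1, hu2, -⟩ := h3
    intro j
    have h4 := hu1 j
    rw [Finset.mem_insert] at h4
    rcases h4 with h4 | h4
    · left
      rw [← hu2, h4]
    · exact Or.inr ⟨u j, h4, hu2 j⟩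
  · rintro N ⟨x, hx⟩
    show eff M (Rs M en N) N (en N) = ∅
    rw [hx]
    rfl
  · intro x N
    obtain ⟨k, h1, h2⟩ := hen (Sum.inl x) N
    exact ⟨k, h1, ⟨x, h2⟩, by simp only [h2]; rfl⟩
  · intro F x N hF hx
    obtain ⟨k, h1, h2⟩ := hen (Sum.inr (F, x)) (N + ((F.image Prod.fst).sup id + 1))
    have h3 : ∀ p ∈ F, p.1 < k := by
      intro p hp
      have : p.1 ≤ (F.image Prod.fst).sup id :=
        Finset.le_sup (f := id) (Finset.mem_image_of_mem _ hp)
      omega
    refine ⟨k, by omega, h3, ?_, ?_, by simp only [h2]; rfl⟩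
    · rintro ⟨y, hy⟩
      rw [h2] at hy
      cases hy
    · show eff M (Rs M en k) k (en k) = F
      rw [h2]
      exact if_pos ⟨fun p hp => ⟨h3 p hp, hx p hp⟩, (pi_rs h3).2 hF⟩

end TwC

end Pool.Agent.TH783.HA
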