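import Pool.Agent.TH783.HA.WW
import Pool.Agent.TH783.HA.Tower

set_option autoImplicit false

/-! Free amalgams inside `M`, and facts on the tower. -/

namespace Pool.Agent.TH783.HA

open Set

variable {a : ℕ → ℕ} {M : St a ℕ} {T : Type} {Q : St a T} {P : T → Prop}

theorem amalg (hM : Homog M) (hF : FA M) {Z : Type} {U V : Set Z} (hU : U.Finite)
    (hV : V.Finite) {f g : Z → ℕ} (hf : InjOn f U) (hg : InjOn g V)
    (hfg : ∀ z ∈ U, z ∈ V → f z = g z) :
    ∃ h : Z → ℕ, InjOn h (U ∪ V) ∧ (∀ z ∈ U, h z = f z) ∧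
      ∀ (i : ℕ) (v : Fin (a i) → Z), (∀ j, v j ∈ U ∨ v j ∈ V) → ((M i fun j => h (v j)) ↔
        ((∀ j, v j ∈ U) ∧ M i fun j => f (v j)) ∨ ((∀ j, v j ∈ V) ∧ M i fun j => g (v j))) := by
  let Q : St a Z := fun i v =>
    ((∀ j, v j ∈ U) ∧ M i fun j => f (v j)) ∨ ((∀ j, v j ∈ V) ∧ M i fun j => g (v j))
  have h1 : Em M Q U f := by
    refine ⟨hf, fun i v hv => ⟨?_, fun h => Or.inl ⟨hv, h⟩⟩⟩
    rintro (⟨-, h1⟩ | ⟨h1, h2⟩)
    · exact h1
    · have : (fun j => f (v j)) = fun j => g (v j) := funext fun j => hfg _ (hv j) (h1 j)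
      rwa [this]
  have h2 : Em M Q V g := by
    refine ⟨hg, fun i v hv => ⟨?_, fun h => Or.inr ⟨hv, h⟩⟩⟩
    rintro (⟨h1, h2⟩ | ⟨-, h1⟩)
    · have : (fun j => f (v j)) = fun j => g (v j) := funext fun j => hfg _ (h1 j) (hv j)
      rwa [← this]
    · exact h1
  obtain ⟨k, hk⟩ := hF.set (Q := Q) hU hV (fun i v _ hq => by
    rcases hq with ⟨h3, -⟩ | ⟨h3, -⟩
    · exact Or.inl h3
    · exact Or.inr h3) ⟨f, h1⟩ ⟨g, h2⟩
  obtain ⟨h, h3, h4⟩ := hM.ext hU subset_union_left h1 hk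
  exact ⟨h, h3.1, h4, fun i v hv => (h3.2 i v hv).symm⟩

theorem pi0 (h : PI M Q ∅) {i : ℕ} (hi : IsEmpty (Fin (a i))) (v : Fin (a i) → T)
    (v' : Fin (a i) → ℕ) : Q i v ↔ M i v' := by
  have h1 := h.2 i (fun j => hi.elim j) (fun j => hi.elim j)
  have e1 : v = fun j => ((hi.elim j : T × ℕ)).1 := funext fun j => hi.elim j
  have e2 : v' = fun j => ((hi.elim j : T × ℕ)).2 := funext fun j => hi.elim j
  rw [e1, e2]
  exact h1

theorem new_pts (h : ∀ (x : ℕ) (B : Finset T), ∃ p, p ∉ B ∧ P p ∧ Ty M Q x p) (B : Finset T)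
    (E : Finset ℕ) : ∃ (r : ℕ → T) (g : T → ℕ), (∀ e ∈ E, r e ∉ B ∧ P (r e) ∧ Ty M Q e (r e)) ∧
      ∀ e ∈ E, g (r e) = e := by
  classical
  induction E using Finset.induction_on with
  | empty =>
    obtain ⟨p, -⟩ := h 0 B
    exact ⟨fun _ => p, fun _ => 0, fun e he => absurd he (Finset.notMem_empty e),
      fun e he => absurd he (Finset.notMem_empty e)⟩
  | insert e0 E he0 ih =>
    obtain ⟨r, g, h1, h2⟩ := ih
    obtain ⟨p, hp1, hp2, hp3⟩ := h e0 (B ∪ E.image r)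
    have hp1' : p ∉ B ∧ p ∉ E.image r := by
      rw [Finset.mem_union] at hp1
      push Not at hp1
      exact hp1
    have hne : ∀ e ∈ E, e ≠ e0 := fun e he h => he0 (h ▸ he)
    refine ⟨fun e => if e = e0 then p else r e, fun t => if t = p then e0 else g t, ?_, ?_⟩
    · intro e he
      rw [Finset.mem_insert] at he
      rcases he with rfl | he
      · simp only [if_true]
        exact ⟨hp1'.1, hp2, hp3⟩
      · simp only [if_neg (hne e he)]
        exact h1 e he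
    · intro e he
      rw [Finset.mem_insert] at he
      rcases he with rfl | he
      · simp
      · have : r e ≠ p := fun h => hp1'.2 (h ▸ Finset.mem_image_of_mem _ he)
        simp only [if_neg (hne e he), if_neg this]
        exact h2 e he

section tower

variable {R : St a ℕ} {N : ℕ → Prop} {D : ℕ → Finset (ℕ × ℕ)} {w : ℕ → ℕ}

theorem exists_top {n : ℕ} (v : Fin n → ℕ) (j : Fin n) : ∃ j0, ∀ j, v j ≤ v j0 := by
  obtain ⟨j0, -, h⟩ := Finset.exists_max_image Finset.univ v ⟨j, Finset.mem_univ _⟩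
  exact ⟨j0, fun j => h j (Finset.mem_univ _)⟩

theorem Tw.tr (h : Tw M R N D w) {i : ℕ} {v : Fin (a i) → ℕ} (hv : R i v)
    (hN : ∀ j, (∀ k, v k ≤ v j) → N (v j)) (j k : Fin (a i)) : v j = v k := by
  obtain ⟨j0, h0⟩ := exists_top v j
  have h1 := h.free i v (v j0) h0 ⟨j0, rfl⟩ hv
  rw [h.triv _ (hN j0 h0)] at h1
  have h2 : ∀ k, v k = v j0 := by
    intro k
    rcases h1 k with h3 | ⟨p, hp, -⟩
    · exact h3
    · exact absurd hp (Finset.notMem_empty p)
  rw [h2 j, h2 k]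

/-- related tuples which contain `k` -/
theorem Tw.fr (h : Tw M R N D w) {i : ℕ} {v : Fin (a i) → ℕ} (hv : R i v) {k : ℕ} (hk : ¬ N k)
    (h1 : ∃ j, v j = k) (h2 : ∀ j, v j = k ∨ N (v j) ∨ v j < k) :
    ∀ j, v j = k ∨ ∃ p ∈ D k, p.1 = v j := by
  obtain ⟨j1, hj1⟩ := h1
  have hle : ∀ j, v j ≤ k := by
    obtain ⟨j0, h0⟩ := exists_top v j1
    have h3 : v j0 = k := by
      by_contra hne
      have h4 : k < v j0 := by
        have := h0 j1
        omega
      have h5 : N (v j0) := by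
        rcases h2 j0 with h6 | h6 | h6
        · exact absurd h6 hne
        · exact h6
        · omega
      have h6 := h.free i v (v j0) h0 ⟨j0, rfl⟩ hv j1
      rw [h.triv _ h5] at h6
      rcases h6 with h6 | ⟨p, hp, -⟩
      · omega
      · exact absurd hp (Finset.notMem_empty p)
    intro j
    rw [← h3]
    exact h0 j
  exact h.free i v k hle ⟨j1, hj1⟩ hv

theorem Tw.inf (h : Tw M R N D w) (x : ℕ) (B : Finset ℕ) : ∃ p, p ∉ B ∧ N p ∧ Ty M R x p := by
  obtain ⟨k, h1, h2, h3⟩ := h.pt x (B.sup id + 1)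
  refine ⟨k, fun hk => ?_, h2, ?_⟩
  · have : k ≤ B.sup id := Finset.le_sup (f := id) hk
    omega
  · have h4 := h.pi k
    rw [h.triv _ h2, h3] at h4
    exact h4

theorem Tw.loc (hF : FA M) (h : Tw M R N D w) (n : ℕ) : ∃ f, Em M R {k | k < n} f := by
  induction n with
  | zero =>
    have h0 : PI M R ∅ := (h.pi 0).mono (Finset.empty_subset _)
    refine ⟨id, fun x hx => absurd hx (Nat.not_lt_zero x), fun i v hv => ?_⟩
    have he : IsEmpty (Fin (a i)) := ⟨fun j => absurd (hv j) (Nat.not_lt_zero _)⟩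
    exact pi0 h0 he _ _
  | succ n ih =>
    have hfin : {x | ∃ p ∈ insert (n, w n) (D n), p.1 = x}.Finite := by
      refine ((insert (n, w n) (D n)).image Prod.fst).finite_toSet.subset ?_
      rintro y ⟨p, hp, rfl⟩
      exact Finset.mem_coe.2 (Finset.mem_image_of_mem _ hp)
    obtain ⟨g, hg, -⟩ := (h.pi n).em
    have hlt : ∀ x, (∃ p ∈ insert (n, w n) (D n), p.1 = x) → x ≤ n := by
      rintro x ⟨p, hp, rfl⟩
      rw [Finset.mem_insert] at hp
      rcases hp with rfl | hp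
      · exact le_rfl
      · exact (h.lt n p hp).1.le
    obtain ⟨f, hf⟩ := hF.set (Q := R) (finite_lt_nat n) hfin (fun i v hv hR => by
      by_cases h1 : ∃ j, v j = n
      · right
        have h2 : ∀ j, v j ≤ n := by
          intro j
          rcases hv j with h3 | h3
          · exact Nat.le_of_lt h3
          · exact hlt _ h3
        intro j
        rcases h.free i v n h2 h1 hR j with h3 | ⟨p, hp, h3⟩
        · exact ⟨_, Finset.mem_insert_self _ _, h3.symm⟩
        · exact ⟨p, Finset.mem_insert_of_mem hp, h3⟩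
      · left
        push Not at h1
        intro j
        rcases hv j with h3 | h3
        · exact h3
        · exact lt_of_le_of_ne (hlt _ h3) (h1 j)) ih ⟨g, hg⟩
    refine ⟨f, hf.mono fun x hx => ?_⟩
    rcases Nat.lt_succ_iff_lt_or_eq.1 hx with h1 | h1
    · exact Or.inl h1
    · exact Or.inr ⟨_, Finset.mem_insert_self _ _, h1.symm⟩

/-- comparison of the links of a point with the links of its type -/
theorem Tw.cmp (h : Tw M R N D w) {k : ℕ} (hk : ¬ N k) :
    ∃ f, Cmp R N M (fun m => ∃ r ∈ D k, N r.1 ∧ r.2 = m)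
      {x | ∃ r ∈ insert (k, w k) (D k), r.1 = x} f k ∧ f k = w k ∧ ∀ r ∈ D k, f r.1 = r.2 := by
  obtain ⟨f, hf, hf'⟩ := (h.pi k).em
  have hfk : f k = w k := hf' (k, w k) (Finset.mem_insert_self _ _)
  have hfD : ∀ r ∈ D k, f r.1 = r.2 := fun r hr => hf' r (Finset.mem_insert_of_mem hr)
  refine ⟨f, ⟨hf.1, hf.2, ⟨_, Finset.mem_insert_self _ _, rfl⟩, ?_, ?_, ?_⟩, hfk, hfD⟩
  · rintro t ⟨r, hr, rfl⟩
    rw [Finset.mem_insert] at hr
    rcases hr with rfl | hr
    · constructor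
      · intro h1
        exact absurd h1 hk
      · rintro ⟨r, h1, -, h2⟩
        exact absurd (h2.trans hfk) (h.lt k r h1).2
    · constructor
      · intro h1
        exact ⟨r, hr, h1, (hfD r hr).symm⟩
      · rintro ⟨s, h1, h2, h3⟩
        rw [hfD r hr] at h3
        have h4 := ((h.pi k).1 s (Finset.mem_insert_of_mem h1) r (Finset.mem_insert_of_mem hr)).2 h3
        rwa [← h4]
  · rintro E ⟨-, h1, i, v, h2, h3⟩ y hy
    obtain ⟨j, hj⟩ := (h3 y).2 (Or.inr hy)
    have h4 := h.fr h2 hk ((h3 k).2 (Or.inl rfl)) (fun j => by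
      rcases (h3 (v j)).1 ⟨j, rfl⟩ with h4 | h4
      · exact Or.inl h4
      · exact Or.inr (Or.inl (h1 _ h4))) j
    rw [hj] at h4
    rcases h4 with h4 | ⟨p, hp, h4⟩
    · exact ⟨_, Finset.mem_insert_self _ _, h4.symm⟩
    · exact ⟨p, Finset.mem_insert_of_mem hp, h4⟩
  · rintro E ⟨-, h1, -⟩ y hy
    obtain ⟨r, h2, h3, h4⟩ := h1 y hy
    exact ⟨r.1, ⟨r, Finset.mem_insert_of_mem h2, rfl⟩, (hfD r h2).trans h4⟩

end tower

end Pool.Agent.TH783.HA
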