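import Pool.Agent.W889.TV.Basic
import Pool.Agent.W889.SD.Enum

set_option autoImplicit false

/-! Homogeneous structures with free amalgamation: basic facts. -/

namespace Pool.Agent.TH783.HA

open Set

/-- relational structures with relations of arities `a 0, a 1, ...` -/
abbrev St (a : ℕ → ℕ) (T : Type) : Type := (i : ℕ) → (Fin (a i) → T) → Prop

variable {a : ℕ → ℕ}

/-- `f` is an embedding of the substructure of `Q` on `U` -/
def Em {T : Type} (M : St a ℕ) (Q : St a T) (U : Set T) (f : T → ℕ) : Prop :=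
  InjOn f U ∧ ∀ (i : ℕ) (v : Fin (a i) → T), (∀ j, v j ∈ U) → (Q i v ↔ M i fun j => f (v j))

/-- the age is closed under free amalgams -/
def FA (M : St a ℕ) : Prop :=
  ∀ (n : ℕ) (Q : St a (Fin n)) (U V : Set (Fin n)), (∀ x, x ∈ U ∨ x ∈ V) →
    (∀ (i : ℕ) (v : Fin (a i) → Fin n), Q i v → (∀ j, v j ∈ U) ∨ ∀ j, v j ∈ V) →
    (∃ f, Em M Q U f) → (∃ f, Em M Q V f) → ∃ f, Em M Q univ f

/-- every isomorphism between finite substructures extends to an automorphism -/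
def Homog (M : St a ℕ) : Prop :=
  ∀ (n : ℕ) (f g : Fin n → ℕ), Function.Injective f → Function.Injective g →
    (∀ (i : ℕ) (v : Fin (a i) → Fin n), (M i fun j => f (v j)) ↔ M i fun j => g (v j)) →
    ∃ σ : Equiv.Perm ℕ, (∀ (i : ℕ) (v : Fin (a i) → ℕ), (M i fun j => σ (v j)) ↔ M i v) ∧
      ∀ k, σ (f k) = g k

variable {M : St a ℕ} {T : Type} {Q : St a T}

theorem Em.mono {U V : Set T} {f : T → ℕ} (h : Em M Q V f) (hUV : U ⊆ V) : Em M Q U f :=
  ⟨h.1.mono hUV, fun i v hv => h.2 i v fun j => hUV (hv j)⟩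

theorem Em.congr {U : Set T} {f g : T → ℕ} (h : Em M Q U f) (hg : ∀ x ∈ U, g x = f x) :
    Em M Q U g := by
  refine ⟨fun x hx y hy hxy => h.1 hx hy ?_, fun i v hv => ?_⟩
  · rw [← hg x hx, ← hg y hy, hxy]
  · rw [h.2 i v hv]
    have : (fun j => g (v j)) = fun j => f (v j) := funext fun j => hg _ (hv j)
    rw [this]

theorem FA.set (h : FA M) {U V : Set T} (hU : U.Finite) (hV : V.Finite)
    (hr : ∀ (i : ℕ) (v : Fin (a i) → T), (∀ j, v j ∈ U ∨ v j ∈ V) → Q i v →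
      (∀ j, v j ∈ U) ∨ ∀ j, v j ∈ V)
    (h1 : ∃ f, Em M Q U f) (h2 : ∃ f, Em M Q V f) : ∃ f, Em M Q (U ∪ V) f := by
  classical
  have hfin : (U ∪ V).Finite := hU.union hV
  have : Finite ↥(U ∪ V) := hfin
  obtain ⟨n, ⟨e⟩⟩ := Finite.exists_equiv_fin ↥(U ∪ V)
  obtain ⟨f1, hf1⟩ := h1
  obtain ⟨f2, hf2⟩ := h2
  obtain ⟨g, hg⟩ := h n (fun i v => Q i fun j => (e.symm (v j) : T))
    {k | (e.symm k : T) ∈ U} {k | (e.symm k : T) ∈ V} (fun k => (e.symm k).2)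
    (fun i v hv => hr i _ (fun j => (e.symm (v j)).2) hv)
    ⟨fun k => f1 (e.symm k), fun k hk l hl hkl => e.symm.injective (Subtype.ext (hf1.1 hk hl hkl)),
      fun i v hv => hf1.2 i _ hv⟩
    ⟨fun k => f2 (e.symm k), fun k hk l hl hkl => e.symm.injective (Subtype.ext (hf2.1 hk hl hkl)),
      fun i v hv => hf2.2 i _ hv⟩
  refine ⟨fun x => if hx : x ∈ U ∪ V then g (e ⟨x, hx⟩) else 0, fun x hx y hy hxy => ?_,
    fun i v hv => ?_⟩
  · simp only [dif_pos hx, dif_pos hy] at hxy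
    have := e.injective (hg.1 (mem_univ _) (mem_univ _) hxy)
    exact congrArg Subtype.val this
  · have h3 := hg.2 i (fun j => e ⟨v j, hv j⟩) (fun _ => mem_univ _)
    simp only [Equiv.symm_apply_apply] at h3
    rw [h3]
    have h4 : (fun j => if hx : v j ∈ U ∪ V then g (e ⟨v j, hx⟩) else 0) =
        fun j => g (e ⟨v j, hv j⟩) := funext fun j => by rw [dif_pos (hv j)]
    rw [h4]

theorem Homog.ext (h : Homog M) {U V : Set T} (hU : U.Finite) (hUV : U ⊆ V) {f g : T → ℕ}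
    (hf : Em M Q U f) (hg : Em M Q V g) : ∃ g', Em M Q V g' ∧ ∀ x ∈ U, g' x = f x := by
  have : Finite ↥U := hU
  obtain ⟨n, ⟨e⟩⟩ := Finite.exists_equiv_fin ↥U
  obtain ⟨σ, h1, h2⟩ := h n (fun k => g (e.symm k)) (fun k => f (e.symm k))
    (fun k l hkl => e.symm.injective (Subtype.ext
      (hg.1 (hUV (e.symm k).2) (hUV (e.symm l).2) hkl)))
    (fun k l hkl => e.symm.injective (Subtype.ext (hf.1 (e.symm k).2 (e.symm l).2 hkl)))
    (fun i v => by
      rw [← hf.2 i (fun j => (e.symm (v j) : T)) (fun j => (e.symm (v j)).2),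
        ← hg.2 i (fun j => (e.symm (v j) : T)) (fun j => hUV (e.symm (v j)).2)])
  refine ⟨fun x => σ (g x), ⟨fun x hx y hy hxy => hg.1 hx hy (σ.injective hxy), fun i v hv => ?_⟩,
    fun x hx => ?_⟩
  · rw [h1 i fun j => g (v j)]
    exact hg.2 i v hv
  · have := h2 (e ⟨x, hx⟩)
    simpa using this

/-- finite partial isomorphisms to `M` -/
def PI (M : St a ℕ) (Q : St a T) (F : Finset (T × ℕ)) : Prop :=
  (∀ p ∈ F, ∀ q ∈ F, (p.1 = q.1 ↔ p.2 = q.2)) ∧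
    ∀ (i : ℕ) (v : Fin (a i) → T × ℕ), (∀ j, v j ∈ F) →
      ((Q i fun j => (v j).1) ↔ M i fun j => (v j).2)

theorem PI.mono {F G : Finset (T × ℕ)} (h : PI M Q G) (hFG : F ⊆ G) : PI M Q F :=
  ⟨fun p hp q hq => h.1 p (hFG hp) q (hFG hq), fun i v hv => h.2 i v fun j => hFG (hv j)⟩

theorem PI.em {F : Finset (T × ℕ)} (h : PI M Q F) :
    ∃ f : T → ℕ, Em M Q {x | ∃ p ∈ F, p.1 = x} f ∧ ∀ p ∈ F, f p.1 = p.2 := by
  classical
  have h1 : ∀ x : T, ∃ y : ℕ, ∀ p ∈ F, p.1 = x → y = p.2 := by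
    intro x
    by_cases hx : ∃ p ∈ F, p.1 = x
    · obtain ⟨p, hp, rfl⟩ := hx
      exact ⟨p.2, fun q hq hqp => ((h.1 q hq p hp).1 hqp).symm⟩
    · exact ⟨0, fun p hp he => (hx ⟨p, hp, he⟩).elim⟩
  choose f hf using h1
  have hf' : ∀ p ∈ F, f p.1 = p.2 := fun p hp => hf _ p hp rfl
  refine ⟨f, ⟨?_, fun i v hv => ?_⟩, hf'⟩
  · rintro x ⟨p, hp, rfl⟩ y ⟨q, hq, rfl⟩ hxy
    rw [hf' p hp, hf' q hq] at hxy
    exact (h.1 p hp q hq).2 hxy
  · choose u hu1 hu2 using hv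
    have h3 := h.2 i u hu1
    have e1 : (fun j => (u j).1) = v := funext hu2
    have e2 : (fun j => f (v j)) = fun j => (u j).2 := funext fun j => by
      rw [← hf' _ (hu1 j), hu2]
    rw [e2, ← h3, e1]

theorem Em.pi [DecidableEq T] {B : Finset T} {f : T → ℕ} (h : Em M Q ↑B f) :
    PI M Q (B.image fun x => (x, f x)) := by
  refine ⟨fun p hp q hq => ?_, fun i v hv => ?_⟩
  · rw [Finset.mem_image] at hp hq
    obtain ⟨x, hx, rfl⟩ := hp
    obtain ⟨y, hy, rfl⟩ := hq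
    exact ⟨fun h => congrArg f h, fun he => h.1 hx hy he⟩
  · have h1 : ∀ j, (v j).1 ∈ B ∧ f (v j).1 = (v j).2 := by
      intro j
      have h2 := hv j
      rw [Finset.mem_image] at h2
      obtain ⟨x, hx, h3⟩ := h2
      rw [← h3]
      exact ⟨hx, rfl⟩
    rw [h.2 i (fun j => (v j).1) (fun j => (h1 j).1)]
    have : (fun j => f (v j).1) = fun j => (v j).2 := funext fun j => (h1 j).2
    rw [this]

theorem Em.pi' {F : Finset (T × ℕ)} {f : T → ℕ} {U : Set T} (h : Em M Q U f)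
    (hF : ∀ p ∈ F, p.1 ∈ U ∧ f p.1 = p.2) : PI M Q F := by
  refine ⟨fun p hp q hq => ?_, fun i v hv => ?_⟩
  · rw [← (hF p hp).2, ← (hF q hq).2]
    exact ⟨fun h => congrArg f h, fun he => h.1 (hF p hp).1 (hF q hq).1 he⟩
  · rw [h.2 i (fun j => (v j).1) (fun j => (hF _ (hv j)).1)]
    have : (fun j => f (v j).1) = fun j => (v j).2 := funext fun j => (hF _ (hv j)).2
    rw [this]

/-- generic structures -/
structure Gen (M : St a ℕ) (Q : St a T) : Prop where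
  loc : ∀ B : Finset T, ∃ f, Em M Q ↑B f
  ext : ∀ (F : Finset (T × ℕ)) (w : ℕ), PI M Q F → (∀ p ∈ F, p.2 ≠ w) →
    ∃ y, ∃ G, F ⊆ G ∧ (y, w) ∈ G ∧ PI M Q G

theorem Gen.iso [Countable T] (hM : Homog M) (h : Gen M Q) :
    ∃ e : T ≃ ℕ, ∀ (i : ℕ) (v : Fin (a i) → T), Q i v ↔ M i fun j => e (v j) := by
  classical
  have h0 : PI M Q ∅ := by
    obtain ⟨f, hf⟩ := h.loc ∅
    exact hf.pi' (F := ∅) (fun p hp => absurd hp (Finset.notMem_empty p))
  have hforth : ∀ F, PI M Q F → ∀ x : T, ∃ y : ℕ, ∃ G, F ⊆ G ∧ (x, y) ∈ G ∧ PI M Q G := by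
    intro F hF x
    obtain ⟨f, hf1, hf2⟩ := hF.em
    obtain ⟨g, hg⟩ := h.loc (insert x (F.image Prod.fst))
    have hfin : {x | ∃ p ∈ F, p.1 = x}.Finite := by
      refine (F.image Prod.fst).finite_toSet.subset ?_
      rintro y ⟨p, hp, rfl⟩
      exact Finset.mem_coe.2 (Finset.mem_image_of_mem _ hp)
    have hsub : {x | ∃ p ∈ F, p.1 = x} ⊆ ↑(insert x (F.image Prod.fst)) := by
      rintro y ⟨p, hp, rfl⟩
      exact Finset.mem_coe.2 (Finset.mem_insert_of_mem (Finset.mem_image_of_mem _ hp))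
    obtain ⟨g', h1, h2⟩ := hM.ext hfin hsub hf1 hg
    refine ⟨g' x, insert (x, g' x) F, Finset.subset_insert _ _, Finset.mem_insert_self _ _,
      h1.pi' fun p hp => ?_⟩
    rw [Finset.mem_insert] at hp
    rcases hp with rfl | hp
    · exact ⟨Finset.mem_coe.2 (Finset.mem_insert_self _ _), rfl⟩
    · have h3 : p.1 ∈ {x | ∃ p ∈ F, p.1 = x} := ⟨p, hp, rfl⟩
      exact ⟨hsub h3, by rw [h2 _ h3, hf2 _ hp]⟩
  have hback : ∀ F, PI M Q F → ∀ w : ℕ, ∃ y : T, ∃ G, F ⊆ G ∧ (y, w) ∈ G ∧ PI M Q G := by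
    intro F hF w
    by_cases hw : ∃ p ∈ F, p.2 = w
    · obtain ⟨p, hp, rfl⟩ := hw
      exact ⟨p.1, F, subset_rfl, hp, hF⟩
    · push Not at hw
      exact h.ext F w hF hw
  obtain ⟨e, he⟩ := Pool.Agent.W889.TV.bfS (A := T) (B := ℕ) (fun F => PI M Q F) h0 hforth hback
    (fun F hF p hp q hq => hF.1 p hp q hq)
  refine ⟨e, fun i v => ?_⟩
  obtain ⟨F, h1, h2⟩ := he (Finset.univ.image v)
  exact h1.2 i (fun j => (v j, e (v j))) fun j =>
    h2 _ (Finset.mem_image_of_mem _ (Finset.mem_univ _))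

end Pool.Agent.TH783.HA
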