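import Pool.Agent.TH783.HA.Sub

set_option autoImplicit false

/-! Realizing the edges. -/

namespace Pool.Agent.TH783.HA

open Set

variable {a : ℕ → ℕ} {M : St a ℕ} {R : St a ℕ} {N : ℕ → Prop} {D : ℕ → Finset (ℕ × ℕ)}
  {w : ℕ → ℕ} {x0 : ℕ} {Γ : ℕ → ℕ → Prop}

/-- a related tuple with as few entries as possible -/
structure Win (M : St a ℕ) (w0 x0 : ℕ) (i1 : ℕ) (v1 : Fin (a i1) → ℕ) : Prop where
  rel : M i1 v1
  m0 : ∃ j, v1 j = w0
  mx : ∃ j, v1 j = x0
  ne : w0 ≠ x0
  min : ∀ (i : ℕ) (v : Fin (a i) → ℕ), M i v → (∃ j k, v j ≠ v k) →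
    (Finset.univ.image v1).card ≤ (Finset.univ.image v).card

theorem exists_win (h : ∃ (i : ℕ) (v : Fin (a i) → ℕ), M i v ∧ ∃ j k, v j ≠ v k) :
    ∃ w0 x0 i1 v1, Win M w0 x0 i1 v1 := by
  classical
  have h1 : ∃ n, ∃ (i : ℕ) (v : Fin (a i) → ℕ), M i v ∧ (∃ j k, v j ≠ v k) ∧
      (Finset.univ.image v).card = n := by
    obtain ⟨i, v, h1, h2⟩ := h
    exact ⟨_, i, v, h1, h2, rfl⟩
  obtain ⟨i, v, h2, ⟨j, k, h3⟩, h4⟩ := Nat.find_spec h1
  refine ⟨v j, v k, i, v, h2, ⟨j, rfl⟩, ⟨k, rfl⟩, h3, fun i' v' h5 h6 => ?_⟩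
  rw [h4]
  exact Nat.find_min' h1 ⟨i', v', h5, h6, rfl⟩

theorem Win.sub {w0 i1 : ℕ} {v1 : Fin (a i1) → ℕ} (h : Win M w0 x0 i1 v1) {i : ℕ}
    {v : Fin (a i) → ℕ} (hv : M i v) (hne : ∃ j k, v j ≠ v k) (hs : ∀ j, ∃ k, v1 k = v j) :
    ∀ k, ∃ j, v j = v1 k := by
  classical
  have h1 : Finset.univ.image v ⊆ Finset.univ.image v1 := by
    intro y hy
    rw [Finset.mem_image] at hy ⊢
    obtain ⟨j, -, rfl⟩ := hy
    obtain ⟨k, hk⟩ := hs j
    exact ⟨k, Finset.mem_univ _, hk⟩
  have h2 := Finset.eq_of_subset_of_card_le h1 (h.min i v hv hne)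
  intro k
  have h3 : v1 k ∈ Finset.univ.image v := by
    rw [h2]
    exact Finset.mem_image_of_mem _ (Finset.mem_univ _)
  rw [Finset.mem_image] at h3
  obtain ⟨j, -, h4⟩ := h3
  exact ⟨j, h4⟩

theorem ed_real (hM : Homog M) (hF : FA M) (h : Tw M R N D w) {w0 i1 : ℕ}
    {v1 : Fin (a i1) → ℕ} (hw : Win M w0 x0 i1 v1) {p q : ℕ} (hpq : p ≠ q) (hp : N p) (hq : N q)
    (tp : Ty M R x0 p) (tq : Ty M R x0 q) : ∃ k, ¬ N k ∧ Pr R N k p q := by
  classical
  let D0 : Finset ℕ := ((Finset.univ.image v1).erase w0).erase x0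
  have hD0 : ∀ e, e ∈ D0 ↔ (∃ j, v1 j = e) ∧ e ≠ w0 ∧ e ≠ x0 := by
    intro e
    show e ∈ ((Finset.univ.image v1).erase w0).erase x0 ↔ _
    rw [Finset.mem_erase, Finset.mem_erase, Finset.mem_image]
    constructor
    · rintro ⟨h1, h2, j, -, h3⟩
      exact ⟨⟨j, h3⟩, h2, h1⟩
    · rintro ⟨⟨j, h3⟩, h2, h1⟩
      exact ⟨h1, h2, j, Finset.mem_univ _, h3⟩
  have hv1 : ∀ y, (∃ j, v1 j = y) ↔ y = w0 ∨ y = x0 ∨ y ∈ D0 := by
    intro y
    rw [hD0]
    constructor
    · intro h1
      by_cases h2 : y = w0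
      · exact Or.inl h2
      by_cases h3 : y = x0
      · exact Or.inr (Or.inl h3)
      exact Or.inr (Or.inr ⟨h1, h2, h3⟩)
    · rintro (rfl | rfl | h1)
      · exact hw.m0
      · exact hw.mx
      · exact h1.1
  obtain ⟨r, g0, hr, hg0⟩ := new_pts (h := h.inf) {p, q} D0
  have hrp : ∀ e ∈ D0, r e ≠ p ∧ r e ≠ q := by
    intro e he
    have := (hr e he).1
    rw [Finset.mem_insert, Finset.mem_singleton] at this
    push Not at this
    exact this
  -- the two halves
  let S : ℕ → Set (Option ℕ) := fun p => {z | z = none ∨ z = some p ∨ ∃ e ∈ D0, z = some (r e)}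
  let F : ℕ → Option ℕ → ℕ := fun p z => z.elim w0 fun t => if t = p then x0 else g0 t
  have hFn : ∀ p, F p none = w0 := fun p => rfl
  have hFp : ∀ p, F p (some p) = x0 := fun p => if_pos rfl
  have hFr : ∀ p', (p' = p ∨ p' = q) → ∀ e ∈ D0, F p' (some (r e)) = e := by
    intro p' hp' e he
    have h1 : r e ≠ p' := by
      rcases hp' with rfl | rfl
      · exact (hrp e he).1
      · exact (hrp e he).2
    show (if r e = p' then x0 else g0 (r e)) = e
    rw [if_neg h1, hg0 e he]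
  have hSfin : ∀ p, (S p).Finite := by
    intro p
    refine (insert none (insert (some p) (D0.image fun e => some (r e)))).finite_toSet.subset ?_
    rintro z (rfl | rfl | ⟨e, he, rfl⟩)
    · exact Finset.mem_coe.2 (Finset.mem_insert_self _ _)
    · exact Finset.mem_coe.2 (Finset.mem_insert_of_mem (Finset.mem_insert_self _ _))
    · exact Finset.mem_coe.2 (Finset.mem_insert_of_mem (Finset.mem_insert_of_mem
        (Finset.mem_image_of_mem (fun e => some (r e)) he)))
  have hFi : ∀ p', (p' = p ∨ p' = q) → InjOn (F p') (S p') := by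
    intro p' hp'
    have h1 := hFn p'
    have h2 := hFp p'
    have h3 := hFr p' hp'
    rintro z (rfl | rfl | ⟨e, he, rfl⟩) z' (rfl | rfl | ⟨e', he', rfl⟩) hzz
    · rfl
    · exact absurd (h1.symm.trans (hzz.trans h2)) hw.ne
    · exact absurd (h1.symm.trans (hzz.trans (h3 e' he'))).symm ((hD0 e').1 he').2.1
    · exact absurd (h2.symm.trans (hzz.trans h1)).symm hw.ne
    · rfl
    · exact absurd (h2.symm.trans (hzz.trans (h3 e' he'))).symm ((hD0 e').1 he').2.2
    · exact absurd ((h3 e he).symm.trans (hzz.trans h1)) ((hD0 e).1 he).2.1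
    · exact absurd ((h3 e he).symm.trans (hzz.trans h2)) ((hD0 e).1 he).2.2
    · have : e = e' := (h3 e he).symm.trans (hzz.trans (h3 e' he'))
      rw [this]
  have hFm : ∀ p', (p' = p ∨ p' = q) → ∀ z ∈ S p', ∃ j, v1 j = F p' z := by
    intro p' hp'
    rintro z (rfl | rfl | ⟨e, he, rfl⟩)
    · rw [hFn]
      exact hw.m0
    · rw [hFp]
      exact hw.mx
    · rw [hFr p' hp' e he]
      exact ((hD0 e).1 he).1
  have hqp : some q ∉ S p := by
    rintro (h1 | h1 | ⟨e, he, h1⟩)
    · cases h1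
    · exact hpq (Option.some.inj h1).symm
    · exact (hrp e he).2 (Option.some.inj h1).symm
  have hpq' : some p ∉ S q := by
    rintro (h1 | h1 | ⟨e, he, h1⟩)
    · cases h1
    · exact hpq (Option.some.inj h1)
    · exact (hrp e he).1 (Option.some.inj h1).symm
  obtain ⟨g, hg1, hg2, hg3⟩ := amalg hM hF (hSfin p) (hSfin q) (hFi p (Or.inl rfl))
    (hFi q (Or.inr rfl)) (by
      rintro z (rfl | rfl | ⟨e, he, rfl⟩) h2
      · rfl
      · exact absurd h2 hpq'
      · rw [hFr p (Or.inl rfl) e he, hFr q (Or.inr rfl) e he])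
  have hgn : g none = w0 := hg2 none (Or.inl rfl)
  have hgp : g (some p) = x0 := (hg2 _ (Or.inr (Or.inl rfl))).trans (hFp p)
  have hgr : ∀ e ∈ D0, g (some (r e)) = e := fun e he =>
    (hg2 _ (Or.inr (Or.inr ⟨e, he, rfl⟩))).trans (hFr p (Or.inl rfl) e he)
  have h0 : PI M R ∅ := (h.pi 0).mono (Finset.empty_subset _)
  -- nonconstant related tuples on one half contain all points
  have hfull : ∀ p', (p' = p ∨ p' = q) → ∀ (i : ℕ) (z : Fin (a i) → Option ℕ),
      (∀ j, z j ∈ S p') → (M i fun j => F p' (z j)) → (∃ j k, z j ≠ z k) →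
      ∀ y ∈ S p', ∃ j, z j = y := by
    intro p' hp' i z h1 h2 h3 y hy
    obtain ⟨j, k, h4⟩ := h3
    obtain ⟨k1, hk1⟩ := hFm p' hp' y hy
    obtain ⟨j1, hj1⟩ := hw.sub h2 ⟨j, k, fun h5 => h4 (hFi p' hp' (h1 j) (h1 k) h5)⟩
      (fun j => hFm p' hp' _ (h1 j)) k1
    exact ⟨j1, hFi p' hp' (h1 j1) hy (hj1.trans hk1)⟩
  -- points of `N`
  let W : Set ℕ := {t | t = p ∨ t = q ∨ ∃ e ∈ D0, t = r e}
  have hWN : ∀ t ∈ W, N t := by
    rintro t (rfl | rfl | ⟨e, he, rfl⟩)
    · exact hp
    · exact hq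
    · exact (hr e he).2.1
  have hWS : ∀ t ∈ W, some t ∈ S p ∨ some t ∈ S q := by
    rintro t (rfl | rfl | ⟨e, he, rfl⟩)
    · exact Or.inl (Or.inr (Or.inl rfl))
    · exact Or.inr (Or.inr (Or.inl rfl))
    · exact Or.inl (Or.inr (Or.inr ⟨e, he, rfl⟩))
  have hem : Em M R W fun t => g (some t) := by
    refine ⟨fun x hx y hy hxy => Option.some.inj (hg1 (hWS x hx) (hWS y hy) hxy),
      fun i v hv => ?_⟩
    rcases isEmpty_or_nonempty (Fin (a i)) with hi | ⟨⟨j0⟩⟩
    · exact pi0 h0 hi _ _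
    rw [hg3 i (fun j => some (v j)) fun j => hWS _ (hv j)]
    by_cases hcon : ∀ j k, v j = v k
    · have e1 : v = fun _ => v j0 := funext fun j => hcon j j0
      have key : ∀ p' e, (p' = p ∨ p' = q) → some (v j0) ∈ S p' → F p' (some (v j0)) = e →
          Ty M R e (v j0) → (some (v j0) ∈ S p → F p (some (v j0)) = e) →
          (some (v j0) ∈ S q → F q (some (v j0)) = e) →
          (R i v ↔ (((∀ j, some (v j) ∈ S p) ∧ M i fun j => F p (some (v j))) ∨
            ((∀ j, some (v j) ∈ S q) ∧ M i fun j => F q (some (v j))))) := by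
        intro p' e hp' h1 h2 h3 h4 h5
        rw [e1, ty_iff.1 h3 i]
        constructor
        · intro h6
          rcases hp' with rfl | rfl
          · left
            refine ⟨fun _ => h1, ?_⟩
            show M i fun _ => F p' (some (v j0))
            rwa [h2]
          · right
            refine ⟨fun _ => h1, ?_⟩
            show M i fun _ => F p' (some (v j0))
            rwa [h2]
        · rintro (⟨h6, h7⟩ | ⟨h6, h7⟩)
          · have h8 : M i fun _ => F p (some (v j0)) := h7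
            rwa [h4 (h6 j0)] at h8
          · have h8 : M i fun _ => F q (some (v j0)) := h7
            rwa [h5 (h6 j0)] at h8
      rcases hv j0 with h1 | h1 | ⟨e, he, h1⟩
      · refine key p x0 (Or.inl rfl) ?_ ?_ ?_ ?_ ?_
        · rw [h1]
          exact Or.inr (Or.inl rfl)
        · rw [h1, hFp]
        · rw [h1]
          exact tp
        · rw [h1]
          exact fun _ => hFp p
        · rw [h1]
          exact fun h2 => absurd h2 hpq'
      · refine key q x0 (Or.inr rfl) ?_ ?_ ?_ ?_ ?_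
        · rw [h1]
          exact Or.inr (Or.inl rfl)
        · rw [h1, hFp]
        · rw [h1]
          exact tq
        · rw [h1]
          exact fun h2 => absurd h2 hqp
        · rw [h1]
          exact fun _ => hFp q
      · refine key p e (Or.inl rfl) ?_ ?_ ?_ ?_ ?_
        · rw [h1]
          exact Or.inr (Or.inr ⟨e, he, rfl⟩)
        · rw [h1]
          exact hFr p (Or.inl rfl) e he
        · rw [h1]
          exact (hr e he).2.2
        · rw [h1]
          exact fun _ => hFr p (Or.inl rfl) e he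
        · rw [h1]
          exact fun _ => hFr q (Or.inr rfl) e he
    · constructor
      · intro h1
        exact absurd (fun j k => h.tr h1 (fun j _ => hWN _ (hv j)) j k) hcon
      · push Not at hcon
        obtain ⟨j, k, hjk⟩ := hcon
        have hne : ∃ j k, some (v j) ≠ some (v k) := ⟨j, k, fun h1 => hjk (Option.some.inj h1)⟩
        rintro (⟨h1, h2⟩ | ⟨h1, h2⟩)
        · obtain ⟨j, hj⟩ := hfull p (Or.inl rfl) i _ h1 h2 hne none (Or.inl rfl)
          cases hj
        · obtain ⟨j, hj⟩ := hfull q (Or.inr rfl) i _ h1 h2 hne none (Or.inl rfl)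
          cases hj
  let G : Finset (ℕ × ℕ) := (insert p (insert q (D0.image r))).image fun t => (t, g (some t))
  have hG : ∀ s, s ∈ G ↔ ∃ t ∈ W, s = (t, g (some t)) := by
    intro s
    show s ∈ (insert p (insert q (D0.image r))).image _ ↔ _
    rw [Finset.mem_image]
    constructor
    · rintro ⟨t, ht, rfl⟩
      rw [Finset.mem_insert, Finset.mem_insert, Finset.mem_image] at ht
      rcases ht with rfl | rfl | ⟨e, he, rfl⟩
      · exact ⟨_, Or.inl rfl, rfl⟩
      · exact ⟨_, Or.inr (Or.inl rfl), rfl⟩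
      · exact ⟨_, Or.inr (Or.inr ⟨e, he, rfl⟩), rfl⟩
    · rintro ⟨t, ht, rfl⟩
      refine ⟨t, ?_, rfl⟩
      rw [Finset.mem_insert, Finset.mem_insert, Finset.mem_image]
      rcases ht with rfl | rfl | ⟨e, he, rfl⟩
      · exact Or.inl rfl
      · exact Or.inr (Or.inl rfl)
      · exact Or.inr (Or.inr ⟨e, he, rfl⟩)
  have hGpi : PI M R G := hem.pi' fun s hs => by
    obtain ⟨t, ht, rfl⟩ := (hG s).1 hs
    exact ⟨ht, rfl⟩
  have hGw : ∀ s ∈ G, s.2 ≠ w0 := by
    intro s hs
    obtain ⟨t, ht, rfl⟩ := (hG s).1 hs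
    intro h1
    have h2 : g (some t) = g none := h1.trans hgn.symm
    exact absurd (hg1 (hWS t ht) (Or.inl (Or.inl rfl)) h2) (by simp)
  obtain ⟨k, -, -, hk2, hk3, hk4⟩ := h.gen G w0 0 hGpi hGw
  refine ⟨k, hk2, ?_⟩
  obtain ⟨f, hf1, hf2, hf3⟩ := h.cmp hk2
  have hmemW : ∀ t ∈ W, (t, g (some t)) ∈ D k := fun t ht => by
    rw [hk3]
    exact (hG _).2 ⟨t, ht, rfl⟩
  have hpW : p ∈ W := Or.inl rfl
  have hqW : q ∈ W := Or.inr (Or.inl rfl)
  have hrW : ∀ e ∈ D0, r e ∈ W := fun e he => Or.inr (Or.inr ⟨e, he, rfl⟩)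
  refine (hf1.pr_iff ⟨_, Finset.mem_insert_of_mem (hmemW p hpW), rfl⟩
    ⟨_, Finset.mem_insert_of_mem (hmemW q hqW), rfl⟩).2 ?_
  have e1 : f p = g (some p) := hf3 _ (hmemW p hpW)
  have e2 : f q = g (some q) := hf3 _ (hmemW q hqW)
  rw [hf2, hk4, e1, e2]
  have hPF : ∀ m, (∃ s ∈ D k, N s.1 ∧ s.2 = m) ↔ ∃ t ∈ W, g (some t) = m := by
    intro m
    constructor
    · rintro ⟨s, hs, -, rfl⟩
      rw [hk3] at hs
      obtain ⟨t, ht, rfl⟩ := (hG s).1 hs
      exact ⟨t, ht, rfl⟩
    · rintro ⟨t, ht, rfl⟩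
      exact ⟨_, hmemW t ht, hWN t ht, rfl⟩
  have hginj : ∀ t ∈ W, ∀ t' ∈ W, g (some t) = g (some t') → t = t' := fun t ht t' ht' he =>
    Option.some.inj (hg1 (hWS t ht) (hWS t' ht') he)
  refine ⟨fun he => hpq (hginj p hpW q hqW he), D0, ?_, ?_, fun E => ?_⟩
  · intro he
    exact (hrp _ he).1 (hginj _ (hrW _ he) p hpW (hgr _ he))
  · intro he
    exact (hrp _ he).2 (hginj _ (hrW _ he) q hqW (hgr _ he))
  · constructor
    · rintro ⟨⟨y0, hy0⟩, h1, i, v, h2, h3⟩
      have h4 : ∀ j, ∃ z, (z ∈ S p ∨ z ∈ S q) ∧ g z = v j := by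
        intro j
        rcases (h3 (v j)).1 ⟨j, rfl⟩ with h5 | h5
        · exact ⟨none, Or.inl (Or.inl rfl), hgn.trans h5.symm⟩
        · obtain ⟨t, ht, h6⟩ := (hPF _).1 (h1 _ h5)
          exact ⟨some t, hWS t ht, h6⟩
      choose z hz1 hz2 using h4
      have h5 : (fun j => g (z j)) = v := funext hz2
      have h6 := (hg3 i z hz1).1 (by rw [h5]; exact h2)
      obtain ⟨j1, hj1⟩ := (h3 w0).2 (Or.inl rfl)
      obtain ⟨j2, hj2⟩ := (h3 y0).2 (Or.inr hy0)
      have hne : ∃ j k, z j ≠ z k := by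
        refine ⟨j2, j1, fun he => ?_⟩
        have h7 : y0 = w0 := by rw [← hj1, ← hj2, ← hz2, ← hz2, he]
        obtain ⟨t, ht, h8⟩ := (hPF _).1 (h1 _ hy0)
        exact hGw _ ((hG _).2 ⟨t, ht, rfl⟩) (h8.trans h7)
      -- the links are the images of the two halves
      have key : ∀ p', (p' = p ∨ p' = q) → (∀ j, z j ∈ S p') → (M i fun j => F p' (z j)) →
          ∀ y, y ∈ E ↔ (y = g (some p') ∨ y ∈ D0) := by
        intro p' hp' h7 h8 y
        have h9 := hfull p' hp' i z h7 h8 hne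
        have hp'W : p' ∈ W := by
          rcases hp' with rfl | rfl
          · exact hpW
          · exact hqW
        constructor
        · intro hy
          obtain ⟨j, hj⟩ := (h3 y).2 (Or.inr hy)
          rcases h7 j with h10 | h10 | ⟨e, he, h10⟩
          · exfalso
            obtain ⟨t, ht, h8⟩ := (hPF _).1 (h1 _ hy)
            refine hGw _ ((hG _).2 ⟨t, ht, rfl⟩) (h8.trans ?_)
            rw [← hj, ← hz2, h10, hgn]
          · left
            rw [← hj, ← hz2, h10]
          · right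
            rw [← hj, ← hz2, h10, hgr e he]
            exact he
        · have h11 : ∀ t ∈ W, some t ∈ S p' → g (some t) ∈ E := by
            intro t ht ht'
            obtain ⟨j, hj⟩ := h9 _ ht'
            have h12 : v j = g (some t) := by rw [← hz2, hj]
            rcases (h3 _).1 ⟨j, h12⟩ with h13 | h13
            · exact absurd h13 (hGw _ ((hG _).2 ⟨t, ht, rfl⟩))
            · exact h13
          rintro (rfl | hy)
          · exact h11 p' hp'W (Or.inr (Or.inl rfl))
          · rw [← hgr y hy]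
            exact h11 _ (hrW y hy) (Or.inr (Or.inr ⟨y, hy, rfl⟩))
      rcases h6 with ⟨h7, h8⟩ | ⟨h7, h8⟩
      · exact Or.inl (key p (Or.inl rfl) h7 h8)
      · exact Or.inr (key q (Or.inr rfl) h7 h8)
    · have key : ∀ p', (p' = p ∨ p' = q) → (∀ y, y ∈ E ↔ (y = g (some p') ∨ y ∈ D0)) →
          (∀ (i : ℕ) (z : Fin (a i) → Option ℕ), (∀ j, z j ∈ S p') → (M i fun j => F p' (z j)) →
            M i fun j => g (z j)) → lk M (fun m => ∃ s ∈ D k, N s.1 ∧ s.2 = m) w0 E := by
        intro p' hp' hE hrel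
        have hp'W : p' ∈ W := by
          rcases hp' with rfl | rfl
          · exact hpW
          · exact hqW
        refine ⟨⟨_, (hE _).2 (Or.inl rfl)⟩, fun y hy => (hPF y).2 ?_, ?_⟩
        · rcases (hE y).1 hy with rfl | h1
          · exact ⟨p', hp'W, rfl⟩
          · exact ⟨r y, hrW y h1, hgr y h1⟩
        · let z : Fin (a i1) → Option ℕ := fun j =>
            if v1 j = w0 then none else if v1 j = x0 then some p' else some (r (v1 j))
          have hz : ∀ j, z j ∈ S p' ∧ F p' (z j) = v1 j := by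
            intro j
            by_cases c1 : v1 j = w0
            · have c2 : z j = none := if_pos c1
              rw [c2, c1]
              exact ⟨Or.inl rfl, rfl⟩
            by_cases c3 : v1 j = x0
            · have c2 : z j = some p' := (if_neg c1).trans (if_pos c3)
              rw [c2, c3]
              exact ⟨Or.inr (Or.inl rfl), hFp p'⟩
            · have c2 : z j = some (r (v1 j)) := (if_neg c1).trans (if_neg c3)
              have c4 : v1 j ∈ D0 := (hD0 _).2 ⟨⟨j, rfl⟩, c1, c3⟩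
              rw [c2]
              exact ⟨Or.inr (Or.inr ⟨_, c4, rfl⟩), hFr p' hp' _ c4⟩
          have c5 : (fun j => F p' (z j)) = v1 := funext fun j => (hz j).2
          refine ⟨i1, fun j => g (z j), hrel i1 z (fun j => (hz j).1) (by rw [c5]; exact hw.rel),
            fun y => ?_⟩
          constructor
          · rintro ⟨j, rfl⟩
            rcases (hz j).1 with c6 | c6 | ⟨e, he, c6⟩
            · left
              show g (z j) = w0
              rw [c6, hgn]
            · right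
              refine (hE _).2 (Or.inl ?_)
              show g (z j) = _
              rw [c6]
            · right
              refine (hE _).2 (Or.inr ?_)
              show g (z j) ∈ D0
              rw [c6, hgr e he]
              exact he
          · intro hy
            have c7 : ∀ t ∈ S p', ∃ j, g (z j) = g t := by
              intro t ht
              obtain ⟨j, hj⟩ := hFm p' hp' t ht
              refine ⟨j, ?_⟩
              rw [hFi p' hp' (hz j).1 ht ((hz j).2.trans hj)]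
            rcases hy with rfl | hy
            · obtain ⟨j, hj⟩ := c7 none (Or.inl rfl)
              exact ⟨j, hj.trans hgn⟩
            · rcases (hE y).1 hy with rfl | hy
              · exact c7 _ (Or.inr (Or.inl rfl))
              · obtain ⟨j, hj⟩ := c7 _ (Or.inr (Or.inr ⟨y, hy, rfl⟩))
                exact ⟨j, hj.trans (hgr y hy)⟩
      rintro (hE | hE)
      · refine key p (Or.inl rfl) hE fun i z h1 h2 => ?_
        exact (hg3 i z fun j => Or.inl (h1 j)).2 (Or.inl ⟨h1, h2⟩)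
      · refine key q (Or.inr rfl) hE fun i z h1 h2 => ?_
        exact (hg3 i z fun j => Or.inr (h1 j)).2 (Or.inr ⟨h1, h2⟩)

/-- all edges of `Γ` are edges of the decoded graph -/
theorem ed_sub' (hM : Homog M) (hF : FA M) (h : Tw M R N D w) {w0 i1 : ℕ}
    {v1 : Fin (a i1) → ℕ} (hw : Win M w0 x0 i1 v1) (hsymm : ∀ p q, Γ p q → Γ q p)
    {p q : TT M R N x0 Γ} (hpq : p ≠ q) (hp : N p.1) (hq : N q.1)
    (tp : Ty M R x0 p.1) (tq : Ty M R x0 q.1) (hΓ : Γ p.1 q.1) :
    Ed (QQ M R N x0 Γ) (fun t => N t.1) p q := by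
  obtain ⟨k, h1, h2⟩ := ed_real hM hF h hw (fun he => hpq (Subtype.ext he)) hp hq tp tq
  have h3 : ¬ Bad M R N x0 Γ k := by
    rintro ⟨-, p', q', -, -, -, -, b5, b6⟩
    rcases h2.uniq b6 with ⟨rfl, rfl⟩ | ⟨rfl, rfl⟩
    · exact b5 hΓ
    · exact b5 (hsymm _ _ hΓ)
  exact ⟨hp, hq, ⟨k, h3⟩, h1, pr_val.2 h2⟩

end Pool.Agent.TH783.HA
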