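import Pool.Agent.TH783.HA.WW

set_option autoImplicit false

/-! Extension of isomorphisms to automorphisms. -/

namespace Pool.Agent.TH783.HA

open Set

variable {a : ℕ → ℕ} {M : St a ℕ}

section ext

variable {N N' : ℕ → Prop}

/-- exchanging the two sides -/
def sw : {n // N n} ≃ {n // N' n} → {n // N n} ⊕ ({n // ¬ N n} × {n // ¬ N' n}) →
    {n // N' n} ⊕ ({n // ¬ N' n} × {n // ¬ N n})
  | π, Sum.inl c => Sum.inl (π c)
  | _, Sum.inr b => Sum.inr (b.2, b.1)

theorem good_swap (π : {n // N n} ≃ {n // N' n}) {F : Finset ({n // ¬ N n} × {n // ¬ N' n})}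
    (h : Good M π F) : Good M π.symm (F.map (Equiv.prodComm _ _).toEmbedding) := by
  refine ⟨fun p hp q hq => ?_, fun i v hv => ?_⟩
  · rw [Finset.mem_map] at hp hq
    obtain ⟨p', hp', rfl⟩ := hp
    obtain ⟨q', hq', rfl⟩ := hq
    exact (h.1 p' hp' q' hq').symm
  · have h1 := h.2 i (fun j => sw π.symm (v j)) (fun j b hb => by
      rcases hvj : v j with c | b'
      · rw [hvj] at hb
        cases hb
      · rw [hvj] at hb
        have h2 := hv j b' hvj
        rw [Finset.mem_map] at h2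
        obtain ⟨b'', h3, h4⟩ := h2
        cases h4
        cases hb
        exact h3)
    have e1 : ∀ z : {n // N' n} ⊕ ({n // ¬ N' n} × {n // ¬ N n}), Lf (sw π.symm z) = Rt π.symm z := by
      rintro (c | b) <;> rfl
    have e2 : ∀ z : {n // N' n} ⊕ ({n // ¬ N' n} × {n // ¬ N n}), Rt π (sw π.symm z) = Lf z := by
      rintro (c | b)
      · show ((π (π.symm c) : {n // N' n}) : ℕ) = c
        rw [Equiv.apply_symm_apply]
      · rfl
    simp only [e1, e2] at h1
    exact h1.symm

theorem good_empty {x0 : ℕ} (h : WW M x0 M N) (h' : WW M x0 M N') (π : {n // N n} ≃ {n // N' n})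
    (hty : ∀ p : {n // N n}, ∀ i, (M i fun _ => (π p : ℕ)) ↔ M i fun _ => (p : ℕ)) :
    Good M π ∅ := by
  refine ⟨fun p hp => absurd hp (Finset.notMem_empty p), fun i v hv => ?_⟩
  have h1 : ∀ j, ∃ c, v j = Sum.inl c := by
    intro j
    rcases hvj : v j with c | b
    · exact ⟨c, rfl⟩
    · exact absurd (hv j b hvj) (Finset.notMem_empty _)
  choose c hc using h1
  have e1 : (fun j => Lf (v j)) = fun j => (c j : ℕ) := funext fun j => by
    rw [hc]
    rfl
  have e2 : (fun j => Rt π (v j)) = fun j => (π (c j) : ℕ) := funext fun j => by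
    rw [hc]
    rfl
  rw [e1, e2]
  by_cases hcon : ∀ j k, c j = c k
  · rcases isEmpty_or_nonempty (Fin (a i)) with he | ⟨⟨j0⟩⟩
    · have : (fun j => (c j : ℕ)) = fun j => (π (c j) : ℕ) := funext fun j => he.elim j
      rw [this]
    · have e3 : c = fun _ => c j0 := funext fun j => hcon j j0
      rw [e3]
      exact (hty (c j0) i).symm
  · push Not at hcon
    obtain ⟨j, k, hjk⟩ := hcon
    constructor
    · intro h1
      exact absurd (Subtype.ext (h.tr i _ h1 (fun j => (c j).2) j k)) hjk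
    · intro h1
      exact absurd (π.injective (Subtype.ext (h'.tr i _ h1 (fun j => (π (c j)).2) j k))) hjk

theorem wext {x0 : ℕ} (h : WW M x0 M N) (h' : WW M x0 M N') (π : {n // N n} ≃ {n // N' n})
    (hty : ∀ p : {n // N n}, ∀ i, (M i fun _ => (π p : ℕ)) ↔ M i fun _ => (p : ℕ))
    (hed : ∀ p q : {n // N n}, Ty M M x0 (p : ℕ) → Ty M M x0 (q : ℕ) →
      (Ed M N (p : ℕ) q ↔ Ed M N' (π p : ℕ) (π q))) :
    ∃ σ : Equiv.Perm ℕ, (∀ (i : ℕ) (v : Fin (a i) → ℕ), (M i fun j => σ (v j)) ↔ M i v) ∧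
      ∀ n, N' (σ n) ↔ N n := by
  classical
  have hback : ∀ F : Finset ({n // ¬ N n} × {n // ¬ N' n}), Good M π F → ∀ y,
      ∃ x, ∃ G, F ⊆ G ∧ (x, y) ∈ G ∧ Good M π G := by
    intro F hF y
    obtain ⟨x, G, h1, h2, h3⟩ := good_step h' h π.symm (fun p i => by
      have := hty (π.symm p) i
      rw [Equiv.apply_symm_apply] at this
      exact this.symm) (fun p q hp hq hE => by
      have h4 : ∀ p : {n // N' n}, Ty M M x0 (p : ℕ) → Ty M M x0 (π.symm p : ℕ) := by
        intro p hp
        rw [ty_iff] at hp ⊢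
        intro i
        have h5 := hty (π.symm p) i
        rw [Equiv.apply_symm_apply] at h5
        rw [← h5]
        exact hp i
      have h6 := hed (π.symm p) (π.symm q) (h4 p hp) (h4 q hq)
      rw [Equiv.apply_symm_apply, Equiv.apply_symm_apply] at h6
      exact h6.2 hE) (good_swap π hF) y
    refine ⟨x, G.map (Equiv.prodComm _ _).toEmbedding, fun b hb => ?_, ?_, ?_⟩
    · rw [Finset.mem_map]
      exact ⟨(b.2, b.1), h1 (Finset.mem_map.2 ⟨b, hb, rfl⟩), rfl⟩
    · rw [Finset.mem_map]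
      exact ⟨(y, x), h2, rfl⟩
    · have h5 := good_swap π.symm h3
      rwa [Equiv.symm_symm] at h5
  obtain ⟨e, he⟩ := Pool.Agent.W889.TV.bfS (A := {n // ¬ N n}) (B := {n // ¬ N' n})
    (fun F => Good M π F) (good_empty h h' π hty)
    (fun F hF x => good_step h h' π hty (fun p q hp hq => (hed p q hp hq).1) hF x) hback
    (fun F hF p hp q hq => hF.1 p hp q hq)
  let σ : Equiv.Perm ℕ :=
    (Equiv.sumCompl N).symm.trans ((Equiv.sumCongr π e).trans (Equiv.sumCompl N'))
  have hs1 : ∀ n (hn : N n), σ n = π ⟨n, hn⟩ := by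
    intro n hn
    simp [σ, Equiv.sumCompl_symm_apply_of_pos hn]
  have hs2 : ∀ n (hn : ¬ N n), σ n = e ⟨n, hn⟩ := by
    intro n hn
    simp [σ, Equiv.sumCompl_symm_apply_of_neg hn]
  refine ⟨σ, fun i v => ?_, fun n => ?_⟩
  · let z : Fin (a i) → {n // N n} ⊕ ({n // ¬ N n} × {n // ¬ N' n}) := fun j =>
      if hn : N (v j) then Sum.inl ⟨v j, hn⟩ else Sum.inr (⟨v j, hn⟩, e ⟨v j, hn⟩)
    have hz1 : ∀ j, Lf (z j) = v j := by
      intro j
      by_cases hn : N (v j)
      · have : z j = Sum.inl ⟨v j, hn⟩ := dif_pos hn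
        rw [this]
        rfl
      · have : z j = Sum.inr (⟨v j, hn⟩, e ⟨v j, hn⟩) := dif_neg hn
        rw [this]
        rfl
    have hz2 : ∀ j, Rt π (z j) = σ (v j) := by
      intro j
      by_cases hn : N (v j)
      · have : z j = Sum.inl ⟨v j, hn⟩ := dif_pos hn
        rw [this, hs1 _ hn]
        rfl
      · have : z j = Sum.inr (⟨v j, hn⟩, e ⟨v j, hn⟩) := dif_neg hn
        rw [this, hs2 _ hn]
        rfl
    obtain ⟨F, hF1, hF2⟩ := he ((Finset.univ.image v).subtype fun n => ¬ N n)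
    have h5 := hF1.2 i z (fun j b hb => by
      by_cases hn : N (v j)
      · have : z j = Sum.inl ⟨v j, hn⟩ := dif_pos hn
        rw [this] at hb
        cases hb
      · have : z j = Sum.inr (⟨v j, hn⟩, e ⟨v j, hn⟩) := dif_neg hn
        rw [this] at hb
        cases hb
        refine hF2 _ (Finset.mem_subtype.2 ?_)
        exact Finset.mem_image_of_mem _ (Finset.mem_univ _))
    have e1 : (fun j => Lf (z j)) = v := funext hz1
    have e2 : (fun j => Rt π (z j)) = fun j => σ (v j) := funext hz2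
    rw [e1, e2] at h5
    exact h5.symm
  · by_cases hn : N n
    · rw [hs1 n hn]
      exact ⟨fun _ => hn, fun _ => (π _).2⟩
    · rw [hs2 n hn]
      exact ⟨fun h => absurd h (e _).2, fun h => absurd h hn⟩

end ext

end Pool.Agent.TH783.HA
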