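import Pool.Agent.TH783.HA.Amal

set_option autoImplicit false

/-! The structures with all allowed types are generic. -/

namespace Pool.Agent.TH783.HA

open Set

variable {a : ℕ → ℕ} {M : St a ℕ} {T : Type} {Q : St a T} {P : T → Prop} {x0 : ℕ}

/-- adding a disjoint copy of a linked set -/
theorem add_copy (hM : Homog M) (hF : FA M) (h : WW M x0 Q P) {F : Finset (T × ℕ)}
    (hpi : PI M Q F) {w : ℕ} (hw : ∀ p ∈ F, p.2 ≠ w) {E : Finset ℕ}
    (hE : lk M (fun m => ∃ r ∈ F, P r.1 ∧ r.2 = m) w E) :
    ∃ G : Finset (T × ℕ), F ⊆ G ∧ PI M Q G ∧ (∀ p ∈ G, p.2 ≠ w) ∧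
      ∃ E' : Finset ℕ, lk M (fun m => ∃ r ∈ G, P r.1 ∧ r.2 = m) w E' ∧
        ∀ m ∈ E', ∀ p ∈ F, p.2 ≠ m := by
  classical
  obtain ⟨⟨e0, he0⟩, hE1, i1, v1, hv1, hv1'⟩ := hE
  obtain ⟨C, hC⟩ := h.fin (F.image Prod.fst)
  obtain ⟨r, g0, hr, hg0⟩ := new_pts (h := h.inf) (F.image Prod.fst ∪ C) E
  have hrB : ∀ e ∈ E, r e ∉ F.image Prod.fst ∧ r e ∉ C := by
    intro e he
    have := (hr e he).1
    rw [Finset.mem_union] at this
    push Not at this
    exact this
  obtain ⟨f, hf, hf'⟩ := hpi.em
  let U : Set (Option T) := {z | z = none ∨ ∃ p ∈ F, z = some p.1}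
  let V : Set (Option T) := {z | z = none ∨ ∃ e ∈ E, z = some (r e)}
  let fU : Option T → ℕ := fun z => z.elim w f
  let fV : Option T → ℕ := fun z => z.elim w g0
  have hwE : w ∉ E := by
    intro hwE
    obtain ⟨p, h1, -, h2⟩ := hE1 w hwE
    exact hw p h1 h2
  have hUfin : U.Finite := by
    refine (insert none (F.image fun p => some p.1)).finite_toSet.subset ?_
    rintro z (rfl | ⟨p, hp, rfl⟩)
    · exact Finset.mem_coe.2 (Finset.mem_insert_self _ _)
    · exact Finset.mem_coe.2 (Finset.mem_insert_of_mem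
        (Finset.mem_image_of_mem (fun p : T × ℕ => some p.1) hp))
  have hVfin : V.Finite := by
    refine (insert none (E.image fun e => some (r e))).finite_toSet.subset ?_
    rintro z (rfl | ⟨e, he, rfl⟩)
    · exact Finset.mem_coe.2 (Finset.mem_insert_self _ _)
    · exact Finset.mem_coe.2 (Finset.mem_insert_of_mem
        (Finset.mem_image_of_mem (fun e => some (r e)) he))
  have hfU : InjOn fU U := by
    rintro z (rfl | ⟨p, hp, rfl⟩) z' (rfl | ⟨p', hp', rfl⟩) hzz
    · rfl
    · exact absurd ((hf' p' hp').symm.trans hzz.symm) (hw p' hp')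
    · exact absurd ((hf' p hp).symm.trans hzz) (hw p hp)
    · exact congrArg some (hf.1 ⟨p, hp, rfl⟩ ⟨p', hp', rfl⟩ hzz)
  have hfV : InjOn fV V := by
    rintro z (rfl | ⟨e, he, rfl⟩) z' (rfl | ⟨e', he', rfl⟩) hzz
    · rfl
    · exfalso
      have h1 : w = g0 (r e') := hzz
      rw [hg0 e' he'] at h1
      exact hwE (h1 ▸ he')
    · exfalso
      have h1 : g0 (r e) = w := hzz
      rw [hg0 e he] at h1
      exact hwE (h1 ▸ he)
    · have h1 : g0 (r e) = g0 (r e') := hzz
      rw [hg0 e he, hg0 e' he'] at h1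
      rw [h1]
  have hUV : ∀ t, some t ∈ U → some t ∈ V → False := by
    rintro t (h1 | ⟨p, hp, h1⟩) (h2 | ⟨e, he, h2⟩)
    · cases h1
    · cases h1
    · cases h2
    · refine (hrB e he).1 (Finset.mem_image.2 ⟨p, hp, ?_⟩)
      rw [← Option.some.inj h1, ← Option.some.inj h2]
  obtain ⟨g, hg1, hg2, hg3⟩ := amalg hM hF hUfin hVfin hfU hfV (by
    rintro (_ | t) h1 h2
    · rfl
    · exact (hUV t h1 h2).elim)
  have hgn : g none = w := hg2 none (Or.inl rfl)
  have hgF : ∀ p ∈ F, g (some p.1) = p.2 := fun p hp => by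
    rw [hg2 _ (Or.inr ⟨p, hp, rfl⟩)]
    exact hf' p hp
  have hUm : ∀ p ∈ F, some p.1 ∈ U := fun p hp => Or.inr ⟨p, hp, rfl⟩
  have hVm : ∀ e ∈ E, some (r e) ∈ V := fun e he => Or.inr ⟨e, he, rfl⟩
  have h0 : PI M Q ∅ := hpi.mono (Finset.empty_subset _)
  have hem : Em M Q {t | some t ∈ U ∪ V} fun t => g (some t) := by
    refine ⟨fun x hx y hy hxy => Option.some.inj (hg1 hx hy hxy), fun i v hv => ?_⟩
    rcases isEmpty_or_nonempty (Fin (a i)) with hi | hi
    · exact pi0 h0 hi _ _
    rw [hg3 i (fun j => some (v j)) hv]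
    have hUmem : ∀ {t}, some t ∈ U → ∃ p ∈ F, p.1 = t := by
      rintro t (h1 | ⟨p, hp, h1⟩)
      · cases h1
      · exact ⟨p, hp, (Option.some.inj h1).symm⟩
    have hVmem : ∀ {t}, some t ∈ V → ∃ e ∈ E, r e = t := by
      rintro t (h1 | ⟨p, hp, h1⟩)
      · cases h1
      · exact ⟨p, hp, (Option.some.inj h1).symm⟩
    by_cases hall : ∀ j, some (v j) ∈ U
    · have h1 := hf.2 i v fun j => hUmem (hall j)
      rw [h1]
      constructor
      · intro h2
        exact Or.inl ⟨hall, h2⟩
      · rintro (⟨-, h2⟩ | ⟨h2, -⟩)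
        · exact h2
        · obtain ⟨j⟩ := hi
          exact (hUV _ (hall j) (h2 j)).elim
    · push Not at hall
      obtain ⟨j0, hj0⟩ := hall
      obtain ⟨e1, he1, hre1⟩ := hVmem ((hv j0).resolve_left hj0)
      by_cases hall' : ∀ j, some (v j) ∈ V
      · have h1 : ∀ j, ∃ e ∈ E, r e = v j := fun j => hVmem (hall' j)
        choose e he1' he2' using h1
        by_cases hcon : ∀ j k, v j = v k
        · have e1' : v = fun _ => r e1 := funext fun j => by rw [hcon j j0, hre1]
          have h3 := ty_iff.1 (hr e1 he1).2.2 i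
          rw [e1', h3]
          constructor
          · intro h4
            refine Or.inr ⟨fun j => hVm e1 he1, ?_⟩
            show M i fun _ => g0 (r e1)
            rwa [hg0 e1 he1]
          · rintro (⟨h4, -⟩ | ⟨-, h4⟩)
            · exact (hUV _ (h4 j0) (hVm e1 he1)).elim
            · have h5 : M i fun _ => g0 (r e1) := h4
              rwa [hg0 e1 he1] at h5
        · constructor
          · intro h3
            exact absurd (h.tr i v h3 fun j => by
              rw [← he2']
              exact (hr _ (he1' j)).2.1) hcon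
          · rintro (⟨h3, -⟩ | ⟨-, h3⟩)
            · exact absurd (h3 j0) hj0
            · exfalso
              have h4 : M i fun j => e j := by
                have e3 : (fun j => fV (some (v j))) = fun j => e j := funext fun j => by
                  show g0 (v j) = e j
                  rw [← he2' j, hg0 _ (he1' j)]
                rwa [e3] at h3
              have h5 : ∀ j, ∃ p ∈ F, P p.1 ∧ p.2 = e j := fun j => hE1 _ (he1' j)
              choose p hp1 hp2 hp3 using h5
              have h6 := hpi.2 i p hp1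
              have e4 : (fun j => (p j).2) = fun j => e j := funext hp3
              rw [e4] at h6
              have h7 := h.tr i _ (h6.2 h4) hp2
              refine hcon fun j k => ?_
              have h8 : e j = e k := by
                rw [← hp3, ← hp3]
                exact ((hpi.1 _ (hp1 j) _ (hp1 k)).1 (h7 j k))
              rw [← he2', ← he2', h8]
      · push Not at hall'
        obtain ⟨j1, hj1⟩ := hall'
        obtain ⟨p1, hp1, hp1'⟩ := hUmem ((hv j1).resolve_right hj1)
        constructor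
        · intro h3
          exfalso
          have h4 := hC i v h3 (fun j => by
            rcases hv j with h4 | h4
            · obtain ⟨p, hp, h5⟩ := hUmem h4
              right
              rw [← h5]
              exact Finset.mem_image_of_mem _ hp
            · obtain ⟨e, he, h5⟩ := hVmem h4
              left
              rw [← h5]
              exact (hr e he).2.1) ⟨j0, j1, by
                rw [← hre1, ← hp1']
                intro h5
                exact (hrB e1 he1).1 (h5 ▸ Finset.mem_image_of_mem _ hp1)⟩ j0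
          rw [← hre1] at h4
          rcases h4 with h4 | h4
          · exact (hrB e1 he1).1 h4
          · exact (hrB e1 he1).2 h4
        · rintro (⟨h3, -⟩ | ⟨h3, -⟩)
          · exact absurd (h3 j0) hj0
          · exact absurd (h3 j1) hj1
  refine ⟨F ∪ E.image fun e => (r e, g (some (r e))), Finset.subset_union_left,
    hem.pi' fun p hp => ?_, fun p hp => ?_, E.image fun e => g (some (r e)), ⟨?_, ?_, ?_⟩, ?_⟩
  · rw [Finset.mem_union, Finset.mem_image] at hp
    rcases hp with hp | ⟨e, he, rfl⟩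
    · exact ⟨Or.inl (hUm p hp), hgF p hp⟩
    · exact ⟨Or.inr (hVm e he), rfl⟩
  · rw [Finset.mem_union, Finset.mem_image] at hp
    rcases hp with hp | ⟨e, he, rfl⟩
    · exact hw p hp
    · intro h1
      have h2 : g (some (r e)) = g none := h1.trans hgn.symm
      exact absurd (hg1 (Or.inr (hVm e he)) (Or.inl (Or.inl rfl)) h2) (by simp)
  · exact ⟨_, Finset.mem_image_of_mem _ he0⟩
  · intro m hm
    rw [Finset.mem_image] at hm
    obtain ⟨e, he, rfl⟩ := hm
    exact ⟨(r e, g (some (r e))), Finset.mem_union_right _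
      (Finset.mem_image_of_mem (fun e => (r e, g (some (r e)))) he), (hr e he).2.1, rfl⟩
  · let z : Fin (a i1) → Option T := fun j => if v1 j = w then none else some (r (v1 j))
    have hz : ∀ j, z j ∈ V ∧ fV (z j) = v1 j := by
      intro j
      by_cases h1 : v1 j = w
      · have h2 : z j = none := if_pos h1
        rw [h2]
        exact ⟨Or.inl rfl, h1.symm⟩
      · have h2 : z j = some (r (v1 j)) := if_neg h1
        have h3 : v1 j ∈ E := ((hv1' (v1 j)).1 ⟨j, rfl⟩).resolve_left h1
        rw [h2]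
        exact ⟨hVm _ h3, hg0 _ h3⟩
    refine ⟨i1, fun j => g (z j), (hg3 i1 z fun j => Or.inr (hz j).1).2
      (Or.inr ⟨fun j => (hz j).1, ?_⟩), fun y => ?_⟩
    · have : (fun j => fV (z j)) = v1 := funext fun j => (hz j).2
      rw [this]
      exact hv1
    · constructor
      · rintro ⟨j, rfl⟩
        by_cases h1 : v1 j = w
        · have h2 : z j = none := if_pos h1
          left
          show g (z j) = w
          rw [h2, hgn]
        · have h2 : z j = some (r (v1 j)) := if_neg h1
          have h3 : v1 j ∈ E := ((hv1' (v1 j)).1 ⟨j, rfl⟩).resolve_left h1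
          right
          show g (z j) ∈ _
          rw [h2]
          exact Finset.mem_image_of_mem (fun e => g (some (r e))) h3
      · rintro (rfl | hy)
        · obtain ⟨j, hj⟩ := (hv1' y).2 (Or.inl rfl)
          have h2 : z j = none := if_pos hj
          exact ⟨j, by
            show g (z j) = y
            rw [h2, hgn]⟩
        · rw [Finset.mem_image] at hy
          obtain ⟨e, he, rfl⟩ := hy
          obtain ⟨j, hj⟩ := (hv1' e).2 (Or.inr he)
          have h2 : z j = some (r (v1 j)) := if_neg (by rw [hj]; exact fun h => hwE (h ▸ he))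
          exact ⟨j, by
            show g (z j) = _
            rw [h2, hj]⟩
  · intro m hm p hp
    rw [Finset.mem_image] at hm
    obtain ⟨e, he, rfl⟩ := hm
    intro h1
    have h2 : g (some p.1) = g (some (r e)) := (hgF p hp).trans h1
    have h3 := hg1 (Or.inl (hUm p hp)) (Or.inr (hVm e he)) h2
    exact hUV p.1 (hUm p hp) (h3 ▸ hVm e he)

theorem WW.gen (hM : Homog M) (hF : FA M) (h : WW M x0 Q P)
    (hl : ∀ B : Finset T, ∃ f, Em M Q ↑B f) : Gen M Q := by
  classical
  refine ⟨hl, fun F w hpi hw => ?_⟩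
  by_cases hok : Okay M x0 Q P F w
  · obtain ⟨y, -, -, ⟨G, h1, h2, h3⟩, -⟩ := h.ext F w hpi hw hok ∅
    exact ⟨y, G, h1, h2, h3⟩
  · unfold Okay at hok
    push Not at hok
    obtain ⟨p, hp, q, hq, hP, hP', -, -, hpr, -⟩ := hok
    obtain ⟨E1, h1, h1'⟩ := hpr.mem
    obtain ⟨E2, h2, h2'⟩ := hpr.symm.mem
    have hne12 : ∃ D : Finset ℕ, p.2 ∉ D ∧ q.2 ∉ D ∧ lk M (fun m => ∃ r ∈ F, P r.1 ∧ r.2 = m) w
        (insert p.2 D) ∧ lk M (fun m => ∃ r ∈ F, P r.1 ∧ r.2 = m) w (insert q.2 D) := by
      obtain ⟨-, D, h3, h4, h5⟩ := hpr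
      exact ⟨D, h3, h4, (h5 _).2 (Or.inl fun y => Finset.mem_insert),
        (h5 _).2 (Or.inr fun y => Finset.mem_insert)⟩
    obtain ⟨D, d1, d2, d3, d4⟩ := hne12
    obtain ⟨G, g1, g2, g3, E', g4, g5⟩ := add_copy hM hF h hpi hw d3
    have hmono : ∀ E, lk M (fun m => ∃ r ∈ F, P r.1 ∧ r.2 = m) w E →
        lk M (fun m => ∃ r ∈ G, P r.1 ∧ r.2 = m) w E := by
      rintro E ⟨k1, k2, k3⟩
      refine ⟨k1, fun y hy => ?_, k3⟩
      obtain ⟨r, k4, k5, k6⟩ := k2 y hy
      exact ⟨r, g1 k4, k5, k6⟩
    have hok' : Okay M x0 Q P G w := by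
      intro s _ t _ _ _ _ _ hst
      exfalso
      obtain ⟨-, D', -, -, k3⟩ := hst
      obtain ⟨e, he⟩ := g4.1
      have c1 := (k3 _).1 (hmono _ d3)
      have c2 := (k3 _).1 (hmono _ d4)
      have c3 := (k3 _).1 g4
      have n1 : e ∉ insert p.2 D := by
        intro h3
        obtain ⟨r, k4, -, k6⟩ := d3.2.1 e h3
        exact g5 e he r k4 k6
      have n2 : e ∉ insert q.2 D := by
        intro h3
        obtain ⟨r, k4, -, k6⟩ := d4.2.1 e h3
        exact g5 e he r k4 k6
      have n3 : p.2 ∉ insert q.2 D := by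
        rw [Finset.mem_insert]
        rintro (h3 | h3)
        · exact hpr.1 h3
        · exact d1 h3
      rcases c3 with c3 | c3
      · rcases c1 with c1 | c1
        · exact n1 ((c1 e).2 ((c3 e).1 he))
        · rcases c2 with c2 | c2
          · exact n2 ((c2 e).2 ((c3 e).1 he))
          · exact n3 ((c2 _).2 ((c1 _).1 (Finset.mem_insert_self _ _)))
      · rcases c1 with c1 | c1
        · rcases c2 with c2 | c2
          · exact n3 ((c2 _).2 ((c1 _).1 (Finset.mem_insert_self _ _)))
          · exact n2 ((c2 e).2 ((c3 e).1 he))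
        · exact n1 ((c1 e).2 ((c3 e).1 he))
    obtain ⟨y, -, -, ⟨G', h5, h6, h7⟩, -⟩ := h.ext G w g2 g3 hok' ∅
    exact ⟨y, G', g1.trans h5, h6, h7⟩

end Pool.Agent.TH783.HA
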