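import Pool.Agent.TH783.HA.Basic

set_option autoImplicit false

/-! The sets of elements of `P` linked to a point. -/

namespace Pool.Agent.TH783.HA

open Set

variable {a : ℕ → ℕ} {M : St a ℕ} {T T' : Type} {Q : St a T} {P : T → Prop} {Q' : St a T'}
  {P' : T' → Prop}

/-- the nonempty finite sets of elements of `P` which, together with `x`, are the set of the
entries of a related tuple -/
def lk (Q : St a T) (P : T → Prop) (x : T) (E : Finset T) : Prop :=
  (∃ y, y ∈ E) ∧ (∀ y ∈ E, P y) ∧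
    ∃ (i : ℕ) (v : Fin (a i) → T), Q i v ∧ ∀ y, (∃ j, v j = y) ↔ (y = x ∨ y ∈ E)

/-- two links which differ in one point each -/
def Pr (Q : St a T) (P : T → Prop) (x p q : T) : Prop :=
  p ≠ q ∧ ∃ D : Finset T, p ∉ D ∧ q ∉ D ∧
    ∀ E, lk Q P x E ↔ ((∀ y, y ∈ E ↔ (y = p ∨ y ∈ D)) ∨ ∀ y, y ∈ E ↔ (y = q ∨ y ∈ D))

/-- the graph on `P` -/
def Ed (Q : St a T) (P : T → Prop) (p q : T) : Prop :=
  P p ∧ P q ∧ ∃ x, ¬ P x ∧ Pr Q P x p q

/-- `p` has the same type as `x` -/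
def Ty (M : St a ℕ) (Q : St a T) (x : ℕ) (p : T) : Prop := PI M Q {(p, x)}

theorem Pr.symm {x p q : T} (h : Pr Q P x p q) : Pr Q P x q p := by
  obtain ⟨h1, D, h2, h3, h4⟩ := h
  exact ⟨h1.symm, D, h3, h2, fun E => (h4 E).trans or_comm⟩

theorem Pr.mem {x p q : T} (h : Pr Q P x p q) : ∃ E, lk Q P x E ∧ p ∈ E := by
  classical
  obtain ⟨h1, D, h2, h3, h4⟩ := h
  exact ⟨insert p D, (h4 _).2 (Or.inl fun y => Finset.mem_insert), Finset.mem_insert_self _ _⟩

theorem Pr.prop {x p q : T} (h : Pr Q P x p q) : P p ∧ P q := by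
  obtain ⟨E, h1, h2⟩ := h.mem
  obtain ⟨E', h3, h4⟩ := h.symm.mem
  exact ⟨h1.2.1 _ h2, h3.2.1 _ h4⟩

theorem Ed.symm {p q : T} (h : Ed Q P p q) : Ed Q P q p := by
  obtain ⟨h1, h2, x, h3, h4⟩ := h
  exact ⟨h2, h1, x, h3, h4.symm⟩

theorem Ed.ne {p q : T} (h : Ed Q P p q) : p ≠ q := by
  obtain ⟨h1, h2, x, h3, h4⟩ := h
  exact h4.1

theorem Pr.uniq {x p q p' q' : T} (h : Pr Q P x p q) (h' : Pr Q P x p' q') :
    (p = p' ∧ q = q') ∨ (p = q' ∧ q = p') := by
  classical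
  -- reduction to one of the two cases
  have key : ∀ {r s r' s' : T}, Pr Q P x r s → Pr Q P x r' s' → ∀ D D' : Finset T,
      r ∉ D → s ∉ D → r' ∉ D' → s' ∉ D' → r ≠ s → r' ≠ s' →
      (∀ y, (y = r ∨ y ∈ D) ↔ (y = r' ∨ y ∈ D')) → (∀ y, (y = s ∨ y ∈ D) ↔ (y = s' ∨ y ∈ D')) →
      r = r' ∧ s = s' := by
    intro r s r' s' _ _ D D' h1 h2 h3 h4 h5 h6 h7 h8
    have hD : ∀ y, y ∈ D ↔ y ∈ D' := by
      intro y
      constructor
      · intro hy
        rcases (h7 y).1 (Or.inr hy) with h | h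
        · rcases (h8 y).1 (Or.inr hy) with h' | h'
          · exact absurd (h.symm.trans h') h6
          · exact h'
        · exact h
      · intro hy
        rcases (h7 y).2 (Or.inr hy) with h | h
        · rcases (h8 y).2 (Or.inr hy) with h' | h'
          · exact absurd (h.symm.trans h') h5
          · exact h'
        · exact h
    constructor
    · rcases (h7 r).1 (Or.inl rfl) with h | h
      · exact h
      · exact absurd ((hD r).2 h) h1
    · rcases (h8 s).1 (Or.inl rfl) with h | h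
      · exact h
      · exact absurd ((hD s).2 h) h2
  have h0 := h
  have h0' := h'
  obtain ⟨n1, D, a1, a2, a3⟩ := h
  obtain ⟨n2, D', b1, b2, b3⟩ := h'
  have hp := (b3 (insert p D)).1 ((a3 _).2 (Or.inl fun y => Finset.mem_insert))
  have hq := (b3 (insert q D)).1 ((a3 _).2 (Or.inr fun y => Finset.mem_insert))
  simp only [Finset.mem_insert] at hp hq
  rcases hp with hp | hp <;> rcases hq with hq | hq
  · exfalso
    have := (hq p).2 ((hp p).1 (Or.inl rfl))
    rcases this with h | h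
    · exact n1 h
    · exact a1 h
  · exact Or.inl (key h0 h0' D D' a1 a2 b1 b2 n1 n2 hp hq)
  · exact Or.inr (key h0 h0'.symm D D' a1 a2 b2 b1 n1 n2.symm hp hq)
  · exfalso
    have := (hq p).2 ((hp p).1 (Or.inl rfl))
    rcases this with h | h
    · exact n1 h
    · exact a1 h

/-- data for comparing links -/
structure Cmp (Q : St a T) (P : T → Prop) (Q' : St a T') (P' : T' → Prop) (U : Set T)
    (f : T → T') (x : T) : Prop where
  inj : InjOn f U
  rel : ∀ (i : ℕ) (v : Fin (a i) → T), (∀ j, v j ∈ U) → (Q i v ↔ Q' i fun j => f (v j))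
  xm : x ∈ U
  pm : ∀ t ∈ U, (P t ↔ P' (f t))
  h1 : ∀ E, lk Q P x E → ∀ y ∈ E, y ∈ U
  h2 : ∀ E, lk Q' P' (f x) E → ∀ y ∈ E, ∃ t ∈ U, f t = y

section cmp

variable {U : Set T} {f : T → T'} {x : T}

theorem Cmp.lk_iff [DecidableEq T'] (h : Cmp Q P Q' P' U f x) {E : Finset T}
    (hE : ∀ y ∈ E, y ∈ U) : lk Q P x E ↔ lk Q' P' (f x) (E.image f) := by
  constructor
  · rintro ⟨⟨y0, h0⟩, h1, i, v, h2, h3⟩
    refine ⟨⟨f y0, Finset.mem_image_of_mem _ h0⟩, fun y hy => ?_, i, fun j => f (v j), ?_,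
      fun y => ?_⟩
    · rw [Finset.mem_image] at hy
      obtain ⟨t, ht, rfl⟩ := hy
      exact (h.pm t (hE t ht)).1 (h1 t ht)
    · refine (h.rel i v fun j => ?_).1 h2
      rcases (h3 (v j)).1 ⟨j, rfl⟩ with h4 | h4
      · rw [h4]
        exact h.xm
      · exact hE _ h4
    · constructor
      · rintro ⟨j, rfl⟩
        rcases (h3 (v j)).1 ⟨j, rfl⟩ with h4 | h4
        · left
          exact congrArg f h4
        · exact Or.inr (Finset.mem_image_of_mem _ h4)
      · rintro (rfl | hy)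
        · obtain ⟨j, hj⟩ := (h3 x).2 (Or.inl rfl)
          exact ⟨j, congrArg f hj⟩
        · rw [Finset.mem_image] at hy
          obtain ⟨t, ht, rfl⟩ := hy
          obtain ⟨j, hj⟩ := (h3 t).2 (Or.inr ht)
          exact ⟨j, congrArg f hj⟩
  · rintro ⟨⟨y0, h0⟩, h1, i, v, h2, h3⟩
    rw [Finset.mem_image] at h0
    obtain ⟨t0, ht0, rfl⟩ := h0
    have h4 : ∀ j, ∃ t, (t = x ∨ t ∈ E) ∧ f t = v j := by
      intro j
      rcases (h3 (v j)).1 ⟨j, rfl⟩ with h4 | h4
      · exact ⟨x, Or.inl rfl, h4.symm⟩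
      · rw [Finset.mem_image] at h4
        obtain ⟨t, ht, h5⟩ := h4
        exact ⟨t, Or.inr ht, h5⟩
    choose u hu1 hu2 using h4
    have hU : ∀ t, (t = x ∨ t ∈ E) → t ∈ U := by
      rintro t (rfl | ht)
      · exact h.xm
      · exact hE t ht
    refine ⟨⟨t0, ht0⟩, fun y hy => (h.pm y (hE y hy)).2 (h1 _ (Finset.mem_image_of_mem _ hy)),
      i, u, (h.rel i u fun j => hU _ (hu1 j)).2 ?_, fun y => ?_⟩
    · have : (fun j => f (u j)) = v := funext hu2
      rwa [this]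
    · constructor
      · rintro ⟨j, rfl⟩
        exact hu1 j
      · intro hy
        have h5 : f y = f x ∨ f y ∈ E.image f := by
          rcases hy with rfl | hy
          · exact Or.inl rfl
          · exact Or.inr (Finset.mem_image_of_mem _ hy)
        obtain ⟨j, hj⟩ := (h3 (f y)).2 h5
        exact ⟨j, h.inj (hU _ (hu1 j)) (hU _ hy) (by rw [hu2, hj])⟩

theorem mem_iff [DecidableEq T'] (h : InjOn f U) {E : Finset T} (hE : ∀ y ∈ E, y ∈ U) {t : T}
    (ht : t ∈ U) : f t ∈ E.image f ↔ t ∈ E := by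
  rw [Finset.mem_image]
  constructor
  · rintro ⟨s, hs, h1⟩
    rwa [← h (hE s hs) ht h1]
  · intro h1
    exact ⟨t, h1, rfl⟩

theorem ins_iff [DecidableEq T'] (h : InjOn f U) {E D : Finset T} (hE : ∀ y ∈ E, y ∈ U)
    (hD : ∀ y ∈ D, y ∈ U) {p : T} (hp : p ∈ U) :
    (∀ y, y ∈ E ↔ (y = p ∨ y ∈ D)) ↔
      ∀ y, y ∈ E.image f ↔ (y = f p ∨ y ∈ D.image f) := by
  constructor
  · intro h1 y
    rw [Finset.mem_image]
    constructor
    · rintro ⟨t, ht, rfl⟩
      rcases (h1 t).1 ht with rfl | h2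
      · exact Or.inl rfl
      · exact Or.inr (Finset.mem_image_of_mem _ h2)
    · rintro (rfl | hy)
      · exact ⟨p, (h1 p).2 (Or.inl rfl), rfl⟩
      · rw [Finset.mem_image] at hy
        obtain ⟨t, ht, rfl⟩ := hy
        exact ⟨t, (h1 t).2 (Or.inr ht), rfl⟩
  · intro h1 y
    constructor
    · intro hy
      rcases (h1 (f y)).1 (Finset.mem_image_of_mem _ hy) with h2 | h2
      · exact Or.inl (h (hE y hy) hp h2)
      · exact Or.inr ((mem_iff h hD (hE y hy)).1 h2)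
    · rintro (rfl | hy)
      · exact (mem_iff h hE hp).1 ((h1 (f y)).2 (Or.inl rfl))
      · exact (mem_iff h hE (hD y hy)).1 ((h1 (f y)).2 (Or.inr (Finset.mem_image_of_mem _ hy)))

theorem preim [DecidableEq T'] {E : Finset T'} (h : ∀ y ∈ E, ∃ t ∈ U, f t = y) :
    ∃ E0 : Finset T, (∀ y ∈ E0, y ∈ U) ∧ E0.image f = E := by
  classical
  have h1 : ∀ y : {y // y ∈ E}, ∃ t ∈ U, f t = y := fun y => h y.1 y.2
  choose g hg1 hg2 using h1
  refine ⟨E.attach.image g, fun y hy => ?_, ?_⟩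
  · rw [Finset.mem_image] at hy
    obtain ⟨z, -, rfl⟩ := hy
    exact hg1 z
  · ext y
    rw [Finset.mem_image]
    constructor
    · rintro ⟨t, ht, rfl⟩
      rw [Finset.mem_image] at ht
      obtain ⟨z, -, rfl⟩ := ht
      rw [hg2]
      exact z.2
    · intro hy
      exact ⟨g ⟨y, hy⟩, Finset.mem_image_of_mem _ (Finset.mem_attach _ _), hg2 _⟩

theorem Cmp.pr_iff (h : Cmp Q P Q' P' U f x) {p q : T} (hp : p ∈ U) (hq : q ∈ U) :
    Pr Q P x p q ↔ Pr Q' P' (f x) (f p) (f q) := by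
  classical
  have key : ∀ D : Finset T, (∀ y ∈ D, y ∈ U) →
      ((∀ E, lk Q P x E ↔ ((∀ y, y ∈ E ↔ (y = p ∨ y ∈ D)) ∨ ∀ y, y ∈ E ↔ (y = q ∨ y ∈ D))) ↔
      ∀ E, lk Q' P' (f x) E ↔ ((∀ y, y ∈ E ↔ (y = f p ∨ y ∈ D.image f)) ∨
        ∀ y, y ∈ E ↔ (y = f q ∨ y ∈ D.image f))) := by
    intro D hD
    constructor
    · intro h1 E
      by_cases hE : ∀ y ∈ E, ∃ t ∈ U, f t = y
      · obtain ⟨E0, h2, rfl⟩ := preim hE
        rw [← h.lk_iff h2, h1, ins_iff h.inj h2 hD hp, ins_iff h.inj h2 hD hq]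
      · constructor
        · intro h2
          exact absurd (h.h2 E h2) hE
        · intro h2
          refine absurd (fun y hy => ?_) hE
          rcases h2 with h2 | h2
          · rcases (h2 y).1 hy with rfl | h3
            · exact ⟨p, hp, rfl⟩
            · rw [Finset.mem_image] at h3
              obtain ⟨t, ht, rfl⟩ := h3
              exact ⟨t, hD t ht, rfl⟩
          · rcases (h2 y).1 hy with rfl | h3
            · exact ⟨q, hq, rfl⟩
            · rw [Finset.mem_image] at h3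
              obtain ⟨t, ht, rfl⟩ := h3
              exact ⟨t, hD t ht, rfl⟩
    · intro h1 E
      by_cases hE : ∀ y ∈ E, y ∈ U
      · rw [h.lk_iff hE, h1, ins_iff h.inj hE hD hp, ins_iff h.inj hE hD hq]
      · constructor
        · intro h2
          exact absurd (h.h1 E h2) hE
        · intro h2
          refine absurd (fun y hy => ?_) hE
          rcases h2 with h2 | h2
          · rcases (h2 y).1 hy with rfl | h3
            · exact hp
            · exact hD y h3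
          · rcases (h2 y).1 hy with rfl | h3
            · exact hq
            · exact hD y h3
  constructor
  · rintro ⟨h1, D, h2, h3, h4⟩
    have hD : ∀ y ∈ D, y ∈ U := fun y hy =>
      h.h1 (insert p D) ((h4 _).2 (Or.inl fun y => Finset.mem_insert)) y
        (Finset.mem_insert_of_mem hy)
    refine ⟨fun he => h1 (h.inj hp hq he), D.image f, ?_, ?_, (key D hD).1 h4⟩
    · rwa [mem_iff h.inj hD hp]
    · rwa [mem_iff h.inj hD hq]
  · rintro ⟨h1, D', h2, h3, h4⟩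
    have hD' : ∀ y ∈ D', ∃ t ∈ U, f t = y := fun y hy =>
      h.h2 (insert (f p) D') ((h4 _).2 (Or.inl fun y => Finset.mem_insert)) y
        (Finset.mem_insert_of_mem hy)
    obtain ⟨D, hD, rfl⟩ := preim hD'
    refine ⟨fun he => h1 (congrArg f he), D, ?_, ?_, (key D hD).2 h4⟩
    · rwa [mem_iff h.inj hD hp] at h2
    · rwa [mem_iff h.inj hD hq] at h3

theorem Cmp.mem (h : Cmp Q P Q' P' U f x) {p q : T} (hpq : Pr Q P x p q) : p ∈ U ∧ q ∈ U := by
  obtain ⟨E, h1, h2⟩ := hpq.mem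
  obtain ⟨E', h3, h4⟩ := hpq.symm.mem
  exact ⟨h.h1 _ h1 _ h2, h.h1 _ h3 _ h4⟩

theorem Cmp.mem' (h : Cmp Q P Q' P' U f x) {p q : T'} (hpq : Pr Q' P' (f x) p q) :
    (∃ t ∈ U, f t = p) ∧ ∃ t ∈ U, f t = q := by
  obtain ⟨E, h1, h2⟩ := hpq.mem
  obtain ⟨E', h3, h4⟩ := hpq.symm.mem
  exact ⟨h.h2 _ h1 _ h2, h.h2 _ h3 _ h4⟩

end cmp

end Pool.Agent.TH783.HA
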