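import Pool.Agent.TH783.HA.Map
import Pool.Agent.TH783.IS.Main
import Pool.Agent.TH783.FC.Mod

set_option autoImplicit false

/-! Faithful completeness. -/

namespace Pool.Agent.TH783.HA

open Set
open Pool.Agent.W889.VC (BP Faithful BIso BinStr IsGraph Bip target_Bip)
open Pool.Agent.W889.SD (dc measurable_dc dc_iso dc_iso' faithful_interp)

variable {a : ℕ → ℕ} {M : St a ℕ} {x0 : ℕ}

/-- the orbit equivalence relation of the automorphisms of `M` on the subsets of `ℕ` -/
def Orb (M : St a ℕ) (A B : ℕ → Bool) : Prop :=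
  ∃ σ : Equiv.Perm ℕ, (∀ (i : ℕ) (v : Fin (a i) → ℕ), (M i fun j => σ (v j)) ↔ M i v) ∧
    ∀ n, B (σ n) = A n

theorem Orb.symm {A B : ℕ → Bool} (h : Orb M A B) : Orb M B A := by
  obtain ⟨σ, h1, h2⟩ := h
  refine ⟨σ.symm, fun i v => ?_, fun n => ?_⟩
  · rw [← h1 i fun j => σ.symm (v j)]
    simp only [Equiv.apply_symm_apply]
  · rw [← h2, Equiv.apply_symm_apply]

/-- the set given by `A` -/
abbrev PA (A : ℕ → Bool) : ℕ → Prop := fun n => A n = true

theorem pa_eq {A B : ℕ → Bool} {σ : Equiv.Perm ℕ} (h : ∀ n, B (σ n) = A n) :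
    (fun n => PA A (σ.symm n)) = PA B := by
  funext n
  show (A (σ.symm n) = true) = (B n = true)
  rw [← h, Equiv.apply_symm_apply]

theorem ww_orb {A B : ℕ → Bool} (h : Orb M A B) (hA : WW M x0 M (PA A)) :
    WW M x0 M (PA B) := by
  obtain ⟨σ, h1, h2⟩ := h
  have h3 := hA.map σ fun i v => (h1 i v).symm
  rwa [pa_eq h2] at h3

/-- the vertices of the decoded graph -/
def VA (M : St a ℕ) (x0 : ℕ) (A : ℕ → Bool) (u : ℕ) : Prop := A u = true ∧ Ty M M x0 u

/-- the decoded graph -/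
noncomputable def dec (M : St a ℕ) (x0 : ℕ) : (ℕ → Bool) → BinStr :=
  dc (VA M x0) fun A u v => Ed M (PA A) u v

theorem va_inf {A : ℕ → Bool} (h : WW M x0 M (PA A)) (n : ℕ) : ∃ u, n ≤ u ∧ VA M x0 A u := by
  obtain ⟨p, h1, h2, h3⟩ := h.inf x0 (Finset.range n)
  refine ⟨p, ?_, h2, h3⟩
  rw [Finset.mem_range] at h1
  omega

theorem bp_pa (n : ℕ) : BP fun A : ℕ → Bool => PA A n := by
  have h : Measurable fun A : ℕ → Bool => A n := measurable_pi_apply n
  exact h (measurableSet_singleton true)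

theorem measurable_dec : Measurable (dec M x0) :=
  measurable_dc (fun u => (bp_pa u).and (BP.const _)) fun u v => bp_ed bp_pa u v

theorem ty_trans {x y : ℕ} {p : ℕ} (h : Ty M M x p) (h' : Ty M M y x) : Ty M M y p := by
  rw [ty_iff] at *
  exact fun i => (h i).trans (h' i)

theorem ty_symm {x y : ℕ} (h : Ty M M x y) : Ty M M y x := by
  rw [ty_iff] at *
  exact fun i => (h i).symm

/-- the points of `A` which are not vertices, as a type -/
abbrev Rest (M : St a ℕ) (x0 : ℕ) (A : ℕ → Bool) : Type :=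
  {u : {u // PA A u} // ¬ Ty M M x0 u.1}

theorem rest_inf {A : ℕ → Bool} (h : WW M x0 M (PA A)) {x : ℕ} (hx : ¬ Ty M M x0 x) :
    Infinite {u : Rest M x0 A // (fun i => M i fun _ => u.1.1) = fun i => M i fun _ => x} := by
  classical
  by_contra hn
  rw [not_infinite_iff_finite] at hn
  have hfin : (range fun u : {u : Rest M x0 A //
      (fun i => M i fun _ => u.1.1) = fun i => M i fun _ => x} => u.1.1.1).Finite :=
    finite_range _
  obtain ⟨p, h1, h2, h3⟩ := h.inf x hfin.toFinset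
  refine h1 (hfin.mem_toFinset.2 ⟨⟨⟨⟨p, h2⟩, fun h4 => hx ?_⟩, ?_⟩, rfl⟩)
  · exact ty_trans (ty_symm h3) h4
  · funext i
    exact propext (ty_iff.1 h3 i)

theorem rest_equiv {A B : ℕ → Bool} (hA : WW M x0 M (PA A)) (hB : WW M x0 M (PA B)) :
    ∃ ι : Rest M x0 A ≃ Rest M x0 B, ∀ u,
      (fun i => M i fun _ => (ι u).1.1) = fun i => M i fun _ => u.1.1 := by
  refine Pool.Agent.TH783.FC.fib_equiv (C := ℕ → Prop)
    (fun u : Rest M x0 A => fun i => M i fun _ => u.1.1)
    (fun u : Rest M x0 B => fun i => M i fun _ => u.1.1) fun c => ?_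
  by_cases hc : ∃ x, ¬ Ty M M x0 x ∧ (fun i => M i fun _ => x) = c
  · obtain ⟨x, hx, rfl⟩ := hc
    have h1 := rest_inf hA hx
    have h2 := rest_inf hB hx
    exact nonempty_equiv_of_countable
  · push Not at hc
    have h1 : IsEmpty {u : Rest M x0 A // (fun i => M i fun _ => u.1.1) = c} :=
      ⟨fun u => hc _ u.1.2 u.2⟩
    have h2 : IsEmpty {u : Rest M x0 B // (fun i => M i fun _ => u.1.1) = c} :=
      ⟨fun u => hc _ u.1.2 u.2⟩
    exact ⟨Equiv.equivOfIsEmpty _ _⟩

theorem dec_iso {A B : ℕ → Bool} (hA : WW M x0 M (PA A)) (hB : WW M x0 M (PA B)) :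
    Orb M A B ↔ BIso (dec M x0 A) (dec M x0 B) := by
  classical
  unfold dec
  rw [dc_iso (va_inf hA) (va_inf hB)]
  constructor
  · rintro ⟨σ, h1, h2⟩
    have hty : ∀ u, Ty M M x0 (σ u) ↔ Ty M M x0 u := fun u =>
      ty_map σ fun i v => (h1 i v).symm
    refine ⟨σ.subtypeEquiv fun u => ?_, fun u v => ?_⟩
    · unfold VA
      rw [h2, hty]
    · have h3 := ed_map (P := PA A) (p := u.1) (q := v.1) σ fun i v => (h1 i v).symm
      rw [pa_eq h2] at h3
      exact h3.symm
  · rintro ⟨π, hπ⟩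
    obtain ⟨ι, hι⟩ := rest_equiv hA hB
    let E : ∀ C : ℕ → Bool, {u : {u // PA C u} // Ty M M x0 u.1} ≃ {u // VA M x0 C u} := fun C =>
      Equiv.subtypeSubtypeEquivSubtypeInter (PA C) (Ty M M x0)
    let ρ : {u // PA A u} ≃ {u // PA B u} :=
      (Equiv.sumCompl fun u : {u // PA A u} => Ty M M x0 u.1).symm.trans
        ((Equiv.sumCongr ((E A).trans (π.trans (E B).symm)) ι).trans
          (Equiv.sumCompl fun u : {u // PA B u} => Ty M M x0 u.1))
    have hρ1 : ∀ (u : {u // PA A u}) (h : Ty M M x0 u.1), (ρ u).1 = (π ⟨u.1, u.2, h⟩).1 := by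
      intro u h
      simp only [ρ, Equiv.trans_apply, Equiv.sumCompl_symm_apply_of_pos (p := fun u : {u // PA A u}
        => Ty M M x0 u.1) h, Equiv.sumCongr_apply, Sum.map_inl, Equiv.sumCompl_apply_inl]
      rfl
    have hρ2 : ∀ (u : {u // PA A u}) (h : ¬ Ty M M x0 u.1), (ρ u).1 = (ι ⟨u, h⟩).1.1 := by
      intro u h
      simp only [ρ, Equiv.trans_apply, Equiv.sumCompl_symm_apply_of_neg (p := fun u : {u // PA A u}
        => Ty M M x0 u.1) h, Equiv.sumCongr_apply, Sum.map_inr, Equiv.sumCompl_apply_inr]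
    have hty : ∀ (u : {u // PA A u}) (i : ℕ), (M i fun _ => (ρ u).1) ↔ M i fun _ => u.1 := by
      intro u i
      by_cases h : Ty M M x0 u.1
      · rw [hρ1 u h]
        have h1 := ty_iff.1 (π ⟨u.1, u.2, h⟩).2.2 i
        rw [h1, ← ty_iff.1 h i]
      · rw [hρ2 u h]
        exact iff_of_eq (congrFun (hι ⟨u, h⟩) i)
    obtain ⟨σ, h1, h2⟩ := wext hA hB ρ hty fun p q hp hq => by
      rw [hρ1 p hp, hρ1 q hq]
      exact hπ ⟨p.1, p.2, hp⟩ ⟨q.1, q.2, hq⟩
    exact ⟨σ, h1, fun n => by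
      rw [Bool.eq_iff_iff]
      exact h2 n⟩

theorem dec_surj (hM : Homog M) (hF : FA M) {w0 i1 : ℕ} {v1 : Fin (a i1) → ℕ}
    (hw : Win M w0 x0 i1 v1) {x : BinStr} (hx : IsGraph x) :
    ∃ A, WW M x0 M (PA A) ∧ BIso (dec M x0 A) x := by
  classical
  obtain ⟨R, N, D, w, h⟩ := TwC.exists_tw (M := M)
  have hinf : Infinite {n // N n ∧ Ty M R x0 n} := by
    by_contra hn
    rw [not_infinite_iff_finite] at hn
    have hfin : (range fun u : {n // N n ∧ Ty M R x0 n} => u.1).Finite := finite_range _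
    obtain ⟨p, h1, h2, h3⟩ := h.inf x0 hfin.toFinset
    exact h1 (hfin.mem_toFinset.2 ⟨⟨p, h2, h3⟩, rfl⟩)
  obtain ⟨π⟩ : Nonempty (ℕ ≃ {n // N n ∧ Ty M R x0 n}) := nonempty_equiv_of_countable
  let Γ : ℕ → ℕ → Prop := fun p q => ∃ m n, (π m).1 = p ∧ (π n).1 = q ∧ x m n = true
  have hΓ : ∀ m n, Γ (π m).1 (π n).1 ↔ x m n = true := by
    intro m n
    constructor
    · rintro ⟨m', n', h1, h2, h3⟩
      have e1 : m' = m := π.injective (Subtype.ext h1)
      have e2 : n' = n := π.injective (Subtype.ext h2)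
      rwa [e1, e2] at h3
    · intro h3
      exact ⟨m, n, rfl, rfl, h3⟩
  have hΓs : ∀ p q, Γ p q → Γ q p := by
    rintro p q ⟨m, n, h1, h2, h3⟩
    exact ⟨n, m, h2, h1, hx.symm _ _ h3⟩
  have hww : WW M x0 (QQ M R N x0 Γ) fun t => N t.1 := sub_ww h
  have hgen : Gen M (QQ M R N x0 Γ) := hww.gen hM hF (sub_loc hF h)
  obtain ⟨e, he⟩ := hgen.iso hM
  have hA : (PA fun n => decide (N (e.symm n).1)) = fun n => N (e.symm n).1 := by
    funext n
    exact propext decide_eq_true_iff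
  have hwA : WW M x0 M (PA fun n => decide (N (e.symm n).1)) := by
    rw [hA]
    exact hww.map e he
  refine ⟨fun n => decide (N (e.symm n).1), hwA, ?_⟩
  let τ : ℕ → TT M R N x0 Γ := fun m => ⟨(π m).1, not_bad (π m).2.1⟩
  have hτ : ∀ m, VA M x0 (fun n => decide (N (e.symm n).1)) (e (τ m)) := by
    intro m
    refine ⟨?_, (ty_map e he).2 (ty_val.2 (π m).2.2)⟩
    rw [decide_eq_true_iff, Equiv.symm_apply_apply]
    exact (π m).2.1
  have hbij : Function.Bijective fun m =>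
      (⟨e (τ m), hτ m⟩ : {u // VA M x0 (fun n => decide (N (e.symm n).1)) u}) := by
    constructor
    · intro m n hmn
      have h1 := e.injective (congrArg Subtype.val hmn)
      have h2 : (τ m).1 = (τ n).1 := congrArg Subtype.val h1
      exact π.injective (Subtype.ext h2)
    · rintro ⟨u, h1, h2⟩
      rw [decide_eq_true_iff] at h1
      have h3 : Ty M (QQ M R N x0 Γ) x0 (e.symm u) := by
        rw [← ty_map e he, Equiv.apply_symm_apply]
        exact h2
      obtain ⟨m, hm⟩ := π.surjective ⟨(e.symm u).1, h1, ty_val.1 h3⟩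
      refine ⟨m, Subtype.ext ?_⟩
      have h5 : (π m).1 = (e.symm u).1 := congrArg Subtype.val hm
      have h4 : τ m = e.symm u := Subtype.ext h5
      show e (τ m) = u
      rw [h4, Equiv.apply_symm_apply]
  refine dc_iso' (va_inf hwA) (Equiv.ofBijective _ hbij) fun m n => ?_
  show x m n = true ↔ Ed M (PA fun n => decide (N (e.symm n).1)) (e (τ m)) (e (τ n))
  rw [hA, ed_map (P := fun t => N t.1) e he, ← hΓ]
  constructor
  · intro h1
    refine ed_sub' hM hF h hw hΓs (fun h2 => ?_) (π m).2.1 (π n).2.1 (π m).2.2 (π n).2.2 h1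
    have h4 : (τ m).1 = (τ n).1 := congrArg Subtype.val h2
    have h3 : m = n := π.injective (Subtype.ext h4)
    rw [h3, hΓ] at h1
    rw [hx.irrefl] at h1
    exact absurd h1 (by decide)
  · intro h1
    exact ed_sub (π m).2.2 (π n).2.2 h1

theorem faithful_orb (hM : Homog M) (hF : FA M)
    (hn : ∃ (i : ℕ) (v : Fin (a i) → ℕ), M i v ∧ ∃ j k, v j ≠ v k) :
    Faithful (Orb M) fun _ => True := by
  obtain ⟨w0, x0, i1, v1, hw⟩ := exists_win hn
  refine faithful_interp (target_Bip.faithful.mono (K' := IsGraph) fun y hy => hy.1)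
    (W := fun A => WW M x0 M (PA A)) (δ := dec M x0) (fun _ _ h => h.symm) (bp_ww bp_pa)
    measurable_dec (fun y z h => ww_orb h) (fun y z hy hz => dec_iso hy hz)
    (fun x hx => dec_surj hM hF hw hx) fun _ _ => trivial

end Pool.Agent.TH783.HA
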