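import Pool.Agent.TH783.HA.Ext
import Pool.Agent.TH783.HA.Gen
import Pool.Agent.TH783.HA.Edge

set_option autoImplicit false

/-! Transport along bijections, and measurability. -/

namespace Pool.Agent.TH783.HA

open Set
open Pool.Agent.W889.VC (BP)

variable {a : ℕ → ℕ} {M : St a ℕ} {T : Type} {Q : St a T} {P : T → Prop} {x0 : ℕ}

section map

variable (e : T ≃ ℕ) (he : ∀ (i : ℕ) (v : Fin (a i) → T), Q i v ↔ M i fun j => e (v j))

include he in
theorem pi_map {F : Finset (T × ℕ)} :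
    PI M M (F.map (e.prodCongr (Equiv.refl ℕ)).toEmbedding) ↔ PI M Q F := by
  constructor
  · intro h
    refine ⟨fun p hp q hq => ?_, fun i v hv => ?_⟩
    · exact (e.apply_eq_iff_eq (x := p.1) (y := q.1)).symm.trans
        (h.1 _ (Finset.mem_map_of_mem _ hp) _ (Finset.mem_map_of_mem _ hq))
    · rw [he]
      exact h.2 i (fun j => (e (v j).1, (v j).2)) fun j => Finset.mem_map_of_mem _ (hv j)
  · intro h
    refine ⟨fun p hp q hq => ?_, fun i v hv => ?_⟩
    · rw [Finset.mem_map] at hp hq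
      obtain ⟨p', hp', rfl⟩ := hp
      obtain ⟨q', hq', rfl⟩ := hq
      exact (e.apply_eq_iff_eq (x := p'.1) (y := q'.1)).trans (h.1 p' hp' q' hq')
    · have h1 : ∀ j, ∃ r ∈ F, (e r.1, r.2) = v j := fun j => Finset.mem_map.1 (hv j)
      choose u hu1 hu2 using h1
      have h2 := h.2 i u hu1
      rw [he] at h2
      have e1 : (fun j => (v j).1) = fun j => e (u j).1 := funext fun j => by rw [← hu2]
      have e2 : (fun j => (v j).2) = fun j => (u j).2 := funext fun j => by rw [← hu2]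
      rw [e1, e2]
      exact h2

include he in
theorem ty_map {x : ℕ} {p : T} : Ty M M x (e p) ↔ Ty M Q x p := by
  rw [ty_iff, ty_iff]
  exact forall_congr' fun i => by rw [he]

include he in
theorem cmp_map (x : T) : Cmp Q P M (fun n => P (e.symm n)) univ e x := by
  refine ⟨e.injective.injOn, fun i v _ => he i v, mem_univ _, fun t _ => ?_,
    fun E _ y _ => mem_univ _, fun E _ y _ => ⟨e.symm y, mem_univ _, e.apply_symm_apply y⟩⟩
  rw [Equiv.symm_apply_apply]

include he in
theorem ed_map {p q : T} : Ed M (fun n => P (e.symm n)) (e p) (e q) ↔ Ed Q P p q := by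
  have hs : ∀ p, P (e.symm (e p)) ↔ P p := fun p => by rw [Equiv.symm_apply_apply]
  constructor
  · rintro ⟨h1, h2, x, h3, h4⟩
    rw [Equiv.symm_apply_apply] at h1 h2
    refine ⟨h1, h2, e.symm x, h3, ?_⟩
    rw [(cmp_map e he (e.symm x)).pr_iff (mem_univ _) (mem_univ _), Equiv.apply_symm_apply]
    exact h4
  · rintro ⟨h1, h2, x, h3, h4⟩
    refine ⟨(hs p).2 h1, (hs q).2 h2, e x, fun h5 => h3 ((hs x).1 h5), ?_⟩
    rwa [(cmp_map e he x).pr_iff (mem_univ _) (mem_univ _)] at h4

include he in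
theorem WW.map (h : WW M x0 Q P) : WW M x0 M fun n => P (e.symm n) := by
  classical
  let E : T × ℕ ≃ ℕ × ℕ := e.prodCongr (Equiv.refl ℕ)
  have hE : ∀ F : Finset (ℕ × ℕ), (F.map E.symm.toEmbedding).map E.toEmbedding = F := by
    intro F
    ext r
    simp
  have he' : ∀ (i : ℕ) (v : Fin (a i) → ℕ), M i v ↔ Q i fun j => e.symm (v j) := by
    intro i v
    rw [he]
    simp only [Equiv.apply_symm_apply]
  refine ⟨fun i v hv hP j k => ?_, fun x B => ?_, fun B => ?_, fun F w hF hw hok C => ?_⟩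
  · exact e.symm.injective (h.tr i _ ((he' i v).1 hv) hP j k)
  · obtain ⟨p, h1, h2, h3⟩ := h.inf x (B.map e.symm.toEmbedding)
    refine ⟨e p, fun h4 => h1 ?_, by rwa [Equiv.symm_apply_apply], (ty_map e he).2 h3⟩
    rw [Finset.mem_map]
    exact ⟨e p, h4, by simp⟩
  · obtain ⟨C, hC⟩ := h.fin (B.map e.symm.toEmbedding)
    refine ⟨C.map e.toEmbedding, fun i v hv hB hne j => ?_⟩
    have h1 := hC i _ ((he' i v).1 hv) (fun j => by
      rcases hB j with h2 | h2
      · exact Or.inl h2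
      · right
        rw [Finset.mem_map]
        exact ⟨_, h2, rfl⟩) (by
      obtain ⟨j, k, h2⟩ := hne
      exact ⟨j, k, fun h3 => h2 (e.symm.injective h3)⟩) j
    rcases h1 with h1 | h1
    · left
      rw [Finset.mem_map] at h1
      obtain ⟨y, h2, h3⟩ := h1
      have : y = v j := e.symm.injective h3
      rwa [← this]
    · right
      rw [Finset.mem_map]
      exact ⟨_, h1, by simp⟩
  · let F0 : Finset (T × ℕ) := F.map E.symm.toEmbedding
    have hF0 : ∀ r, r ∈ F0 ↔ (e r.1, r.2) ∈ F := by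
      intro r
      show r ∈ F.map E.symm.toEmbedding ↔ _
      rw [Finset.mem_map]
      constructor
      · rintro ⟨s, hs, rfl⟩
        have : (e (E.symm s).1, (E.symm s).2) = s := E.apply_symm_apply s
        show (e (E.symm s).1, (E.symm s).2) ∈ F
        rwa [this]
      · intro hr
        exact ⟨_, hr, E.symm_apply_apply r⟩
    have hpi : PI M Q F0 := by
      rw [← pi_map e he]
      have := hE F
      rw [this]
      exact hF
    have hPF : (fun m => ∃ r ∈ F, P (e.symm r.1) ∧ r.2 = m) =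
        fun m => ∃ r ∈ F0, P r.1 ∧ r.2 = m := by
      funext m
      refine propext ⟨?_, ?_⟩
      · rintro ⟨r, h1, h2, h3⟩
        refine ⟨(e.symm r.1, r.2), (hF0 _).2 ?_, h2, h3⟩
        rwa [Equiv.apply_symm_apply]
      · rintro ⟨r, h1, h2, h3⟩
        refine ⟨_, (hF0 _).1 h1, ?_, h3⟩
        rwa [Equiv.symm_apply_apply]
    have hok0 : Okay M x0 Q P F0 w := by
      intro p hp q hq h1 h2 h3 h4 h5
      rw [← hPF] at h5
      have hs : ∀ p, P (e.symm (e p)) ↔ P p := fun p => by rw [Equiv.symm_apply_apply]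
      have h6 := hok _ ((hF0 p).1 hp) _ ((hF0 q).1 hq) ((hs _).2 h1)
        ((hs _).2 h2) ((ty_map e he).2 h3) ((ty_map e he).2 h4) h5
      exact (ed_map e he).1 h6
    obtain ⟨y, h1, h2, ⟨G, h3, h4, h5⟩, h6⟩ := h.ext F0 w hpi
      (fun p hp => hw _ ((hF0 p).1 hp)) hok0 (C.map e.symm.toEmbedding)
    refine ⟨e y, by rwa [Equiv.symm_apply_apply], fun h7 => h2 ?_,
      ⟨G.map E.toEmbedding, fun r hr => ?_, Finset.mem_map.2 ⟨_, h4, rfl⟩,
        (pi_map e he).2 h5⟩, fun i v hv hy hC j => ?_⟩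
    · rw [Finset.mem_map]
      exact ⟨e y, h7, by simp⟩
    · rw [← hE F] at hr
      exact Finset.map_subset_map.2 h3 hr
    · have h7 := h6 i _ ((he' i v).1 hv) (by
        obtain ⟨j1, hj1⟩ := hy
        exact ⟨j1, by rw [hj1, Equiv.symm_apply_apply]⟩) (fun j => by
          rcases hC j with h8 | h8 | h8
          · left
            rw [h8, Equiv.symm_apply_apply]
          · exact Or.inr (Or.inl h8)
          · right
            right
            rw [Finset.mem_map]
            exact ⟨_, h8, rfl⟩) j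
      rcases h7 with h7 | ⟨p, hp, h7⟩
      · left
        rw [← h7, Equiv.apply_symm_apply]
      · right
        refine ⟨_, (hF0 p).1 hp, ?_⟩
        show e p.1 = v j
        rw [h7, Equiv.apply_symm_apply]

end map

section meas

variable {Y : Type} [MeasurableSpace Y] {S : Y → ℕ → Prop}

theorem bp_lk (hS : ∀ n, BP fun y => S y n) (x : ℕ) (E : Finset ℕ) :
    BP fun y => lk M (S y) x E :=
  (BP.const _).and ((BP.all fun n => (BP.const (n ∈ E)).imp (hS n)).and (BP.const _))

theorem bp_pr (hS : ∀ n, BP fun y => S y n) (x p q : ℕ) : BP fun y => Pr M (S y) x p q :=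
  (BP.const _).and <| BP.ex fun _ => (BP.const _).and <| (BP.const _).and <|
    BP.all fun E => (bp_lk hS x E).iff (BP.const _)

theorem bp_ed (hS : ∀ n, BP fun y => S y n) (p q : ℕ) : BP fun y => Ed M (S y) p q :=
  (hS p).and <| (hS q).and <| BP.ex fun x => (hS x).not.and (bp_pr hS x p q)

theorem bp_okay (hS : ∀ n, BP fun y => S y n) (F : Finset (ℕ × ℕ)) (w : ℕ) :
    BP fun y => Okay M x0 M (S y) F w := by
  refine BP.all fun p => (BP.const _).imp <| BP.all fun q => (BP.const _).imp <|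
    (hS _).imp <| (hS _).imp <| (BP.const _).imp <| (BP.const _).imp <|
    (bp_pr (S := fun y m => ∃ r ∈ F, S y r.1 ∧ r.2 = m) (fun m => ?_) _ _ _).imp (bp_ed hS _ _)
  exact BP.ex fun r => (BP.const (r ∈ F)).and ((hS r.1).and (BP.const (r.2 = m)))

theorem bp_fr (hS : ∀ n, BP fun y => S y n) (C : Finset ℕ) (F : Finset (ℕ × ℕ)) (z : ℕ) :
    BP fun y => Fr M (S y) C F z :=
  BP.all fun _ => BP.all fun v => (BP.const _).imp <| (BP.const _).imp <|
    (BP.all fun j => (BP.const (v j = z)).or ((hS (v j)).or (BP.const (v j ∈ C)))).imp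
      (BP.const _)

theorem bp_ww (hS : ∀ n, BP fun y => S y n) : BP fun y => WW M x0 M (S y) := by
  have h1 : BP fun y => ∀ (i : ℕ) (v : Fin (a i) → ℕ), M i v → (∀ j, S y (v j)) →
      ∀ j k, v j = v k :=
    BP.all fun _ => BP.all fun v => (BP.const _).imp <| (BP.all fun j => hS (v j)).imp
      (BP.const _)
  have h2 : BP fun y => ∀ (x : ℕ) (B : Finset ℕ), ∃ p, p ∉ B ∧ S y p ∧ Ty M M x p :=
    BP.all fun _ => BP.all fun _ => BP.ex fun p => (BP.const _).and ((hS p).and (BP.const _))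
  have h3 : BP fun y => ∀ B : Finset ℕ, ∃ C : Finset ℕ, ∀ (i : ℕ) (v : Fin (a i) → ℕ), M i v →
      (∀ j, S y (v j) ∨ v j ∈ B) → (∃ j k, v j ≠ v k) → ∀ j, v j ∈ B ∨ v j ∈ C :=
    BP.all fun B => BP.ex fun _ => BP.all fun _ => BP.all fun v => (BP.const _).imp <|
      (BP.all fun j => (hS (v j)).or (BP.const (v j ∈ B))).imp <| (BP.const _).imp (BP.const _)
  have h4 : BP fun y => ∀ (F : Finset (ℕ × ℕ)) (w : ℕ), PI M M F → (∀ p ∈ F, p.2 ≠ w) →
      Okay M x0 M (S y) F w → ∀ C : Finset ℕ, ∃ z, ¬ S y z ∧ z ∉ C ∧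
        (∃ G, F ⊆ G ∧ (z, w) ∈ G ∧ PI M M G) ∧ Fr M (S y) C F z :=
    BP.all fun F => BP.all fun w => (BP.const _).imp <| (BP.const _).imp <|
      (bp_okay hS F w).imp <| BP.all fun C => BP.ex fun z => (hS z).not.and <|
        (BP.const _).and <| (BP.const _).and (bp_fr hS C F z)
  exact (h1.and (h2.and (h3.and h4))).congr fun y =>
    ⟨fun h => ⟨h.1, h.2.1, h.2.2.1, h.2.2.2⟩, fun h => ⟨h.tr, h.inf, h.fin, h.ext⟩⟩

end meas

end Pool.Agent.TH783.HA
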