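import Pool.Agent.TH783.HA.Amal

set_option autoImplicit false

/-! The substructure of the allowed points. -/

namespace Pool.Agent.TH783.HA

open Set

variable {a : ℕ → ℕ} {M : St a ℕ} {R : St a ℕ} {N : ℕ → Prop} {D : ℕ → Finset (ℕ × ℕ)}
  {w : ℕ → ℕ} {x0 : ℕ} {Γ : ℕ → ℕ → Prop}

/-- the points which are not allowed for the graph `Γ` -/
def Bad (M R : St a ℕ) (N : ℕ → Prop) (x0 : ℕ) (Γ : ℕ → ℕ → Prop) (x : ℕ) : Prop :=
  ¬ N x ∧ ∃ p q, N p ∧ N q ∧ Ty M R x0 p ∧ Ty M R x0 q ∧ ¬ Γ p q ∧ Pr R N x p q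

/-- the allowed points -/
abbrev TT (M R : St a ℕ) (N : ℕ → Prop) (x0 : ℕ) (Γ : ℕ → ℕ → Prop) : Type :=
  {x : ℕ // ¬ Bad M R N x0 Γ x}

/-- the substructure -/
def QQ (M R : St a ℕ) (N : ℕ → Prop) (x0 : ℕ) (Γ : ℕ → ℕ → Prop) : St a (TT M R N x0 Γ) :=
  fun i v => R i fun j => (v j).1

theorem not_bad {x : ℕ} (h : N x) : ¬ Bad M R N x0 Γ x := fun h' => h'.1 h

theorem cmp_val (x : TT M R N x0 Γ) :
    Cmp (QQ M R N x0 Γ) (fun t => N t.1) R N univ (fun t => t.1) x := by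
  refine ⟨Subtype.val_injective.injOn, fun i v _ => Iff.rfl, mem_univ _, fun t _ => Iff.rfl,
    fun E _ y _ => mem_univ _, fun E hE y hy => ?_⟩
  exact ⟨⟨y, not_bad (hE.2.1 y hy)⟩, mem_univ _, rfl⟩

theorem pr_val {x p q : TT M R N x0 Γ} :
    Pr (QQ M R N x0 Γ) (fun t => N t.1) x p q ↔ Pr R N x.1 p.1 q.1 :=
  (cmp_val x).pr_iff (mem_univ _) (mem_univ _)

theorem ty_val {x : ℕ} {p : TT M R N x0 Γ} : Ty M (QQ M R N x0 Γ) x p ↔ Ty M R x p.1 := by
  rw [ty_iff, ty_iff]
  exact Iff.rfl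

open Classical in
theorem pi_val {F : Finset (TT M R N x0 Γ × ℕ)} :
    PI M (QQ M R N x0 Γ) F ↔ PI M R (F.image fun r => (r.1.1, r.2)) := by
  constructor
  · intro h
    refine ⟨fun p hp q hq => ?_, fun i v hv => ?_⟩
    · rw [Finset.mem_image] at hp hq
      obtain ⟨p', hp', rfl⟩ := hp
      obtain ⟨q', hq', rfl⟩ := hq
      rw [← h.1 p' hp' q' hq']
      exact Subtype.ext_iff.symm
    · have h1 : ∀ j, ∃ r ∈ F, (r.1.1, r.2) = v j := fun j => Finset.mem_image.1 (hv j)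
      choose u hu1 hu2 using h1
      have h2 := h.2 i u hu1
      have e1 : (fun j => (v j).1) = fun j => (u j).1.1 := funext fun j => by rw [← hu2]
      have e2 : (fun j => (v j).2) = fun j => (u j).2 := funext fun j => by rw [← hu2]
      rw [e1, e2]
      exact h2
  · intro h
    refine ⟨fun p hp q hq => ?_, fun i v hv => ?_⟩
    · rw [← h.1 _ (Finset.mem_image_of_mem _ hp) _ (Finset.mem_image_of_mem _ hq)]
      exact Subtype.ext_iff
    · exact h.2 i (fun j => ((v j).1.1, (v j).2)) fun j => Finset.mem_image_of_mem _ (hv j)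

theorem sub_loc (hF : FA M) (h : Tw M R N D w) (B : Finset (TT M R N x0 Γ)) :
    ∃ f, Em M (QQ M R N x0 Γ) ↑B f := by
  obtain ⟨f, hf⟩ := h.loc hF ((B.sup fun t => t.1) + 1)
  refine ⟨fun t => f t.1, fun x hx y hy hxy => Subtype.ext (hf.1 ?_ ?_ hxy), fun i v hv => ?_⟩
  · exact Nat.lt_succ_of_le (Finset.le_sup (f := fun t : TT M R N x0 Γ => t.1) hx)
  · exact Nat.lt_succ_of_le (Finset.le_sup (f := fun t : TT M R N x0 Γ => t.1) hy)
  · exact hf.2 i (fun j => (v j).1) fun j =>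
      Nat.lt_succ_of_le (Finset.le_sup (f := fun t : TT M R N x0 Γ => t.1) (hv j))

/-- edges of the decoded graph are edges of `Γ` -/
theorem ed_sub {p q : TT M R N x0 Γ} (hp : Ty M R x0 p.1) (hq : Ty M R x0 q.1)
    (h : Ed (QQ M R N x0 Γ) (fun t => N t.1) p q) : Γ p.1 q.1 := by
  obtain ⟨h1, h2, x, h3, h4⟩ := h
  by_contra hn
  exact x.2 ⟨h3, p.1, q.1, h1, h2, hp, hq, hn, pr_val.1 h4⟩

theorem sub_ww (h : Tw M R N D w) :
    WW M x0 (QQ M R N x0 Γ) fun t => N t.1 := by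
  classical
  refine ⟨fun i v hv hN j k => ?_, fun x B => ?_, fun B => ?_, fun F x hF hx hok C => ?_⟩
  · exact Subtype.ext (h.tr (v := fun j => (v j).1) hv (fun j _ => hN j) j k)
  · obtain ⟨p, h1, h2, h3⟩ := h.inf x (B.image fun t => t.1)
    refine ⟨⟨p, not_bad h2⟩, fun hp => h1 ?_, h2, ty_val.2 h3⟩
    exact Finset.mem_image.2 ⟨_, hp, rfl⟩
  · refine ⟨(Finset.range ((B.sup fun t => t.1) + 1)).subtype _, fun i v hv hB hne j => ?_⟩
    right
    rw [Finset.mem_subtype, Finset.mem_range]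
    obtain ⟨j0, hj0⟩ := exists_top (fun j => (v j).1) j
    have h1 : v j0 ∈ B := by
      by_contra hn
      obtain ⟨j1, j2, h2⟩ := hne
      refine h2 (Subtype.ext (h.tr (v := fun j => (v j).1) hv (fun k hk => ?_) j1 j2))
      have h3 : (v k).1 = (v j0).1 := le_antisymm (hj0 k) (hk j0)
      show N (v k).1
      rw [h3]
      exact (hB j0).resolve_right hn
    have h2 : (v j0).1 ≤ B.sup fun t => t.1 :=
      Finset.le_sup (f := fun t : TT M R N x0 Γ => t.1) h1
    have h3 : (v j).1 ≤ (v j0).1 := hj0 j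
    omega
  · obtain ⟨k, h1, h2, h3, h4, h5⟩ := h.gen _ x ((C.sup fun t => t.1) + 1) (pi_val.1 hF) (by
      intro p hp
      rw [Finset.mem_image] at hp
      obtain ⟨r, hr, rfl⟩ := hp
      exact hx r hr)
    have hnb : ¬ Bad M R N x0 Γ k := by
      rintro ⟨-, p, q, b1, b2, b3, b4, b5, b6⟩
      obtain ⟨f, hf1, hf2, hf3⟩ := h.cmp h3
      obtain ⟨hp, hq⟩ := hf1.mem b6
      have hpk : p ≠ k := fun e => h3 (e ▸ b1)
      have hqk : q ≠ k := fun e => h3 (e ▸ b2)
      have key : ∀ p, p ≠ k → (∃ r ∈ insert (k, w k) (D k), r.1 = p) →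
          ∃ r ∈ F, r.1.1 = p ∧ f p = r.2 := by
        rintro p hpk ⟨r, hr, rfl⟩
        rw [Finset.mem_insert] at hr
        rcases hr with rfl | hr
        · exact absurd rfl hpk
        · have h6 := hf3 r hr
          rw [h4, Finset.mem_image] at hr
          obtain ⟨s, hs, rfl⟩ := hr
          exact ⟨s, hs, rfl, h6⟩
      obtain ⟨r, hr, hr1, hr2⟩ := key p hpk hp
      obtain ⟨s, hs, hs1, hs2⟩ := key q hqk hq
      have h6 := (hf1.pr_iff hp hq).1 b6
      rw [hf2, h5, hr2, hs2] at h6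
      have h7 : (fun m => ∃ r ∈ D k, N r.1 ∧ r.2 = m) =
          fun m => ∃ r ∈ F, N r.1.1 ∧ r.2 = m := by
        funext m
        rw [h4]
        refine propext ⟨?_, ?_⟩
        · rintro ⟨t, ht, h8, h9⟩
          rw [Finset.mem_image] at ht
          obtain ⟨t', ht', rfl⟩ := ht
          exact ⟨t', ht', h8, h9⟩
        · rintro ⟨t, ht, h8, h9⟩
          exact ⟨_, Finset.mem_image_of_mem _ ht, h8, h9⟩
      rw [h7] at h6
      have h8 := hok r hr s hs (by show N r.1.1; rw [hr1]; exact b1)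
        (by show N s.1.1; rw [hs1]; exact b2) (ty_val.2 (by rw [hr1]; exact b3))
        (ty_val.2 (by rw [hs1]; exact b4)) h6
      have h9 := ed_sub (by rw [hr1]; exact b3) (by rw [hs1]; exact b4) h8
      rw [hr1, hs1] at h9
      exact b5 h9
    refine ⟨⟨k, hnb⟩, h3, fun hk => ?_, ⟨insert (⟨k, hnb⟩, x) F, Finset.subset_insert _ _,
      Finset.mem_insert_self _ _, ?_⟩, ?_⟩
    · have : k ≤ C.sup fun t => t.1 := Finset.le_sup (f := fun t : TT M R N x0 Γ => t.1) hk
      omega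
    · rw [pi_val, Finset.image_insert]
      have h6 := h.pi k
      rw [h4, h5] at h6
      exact h6
    · intro i v hv hj hC j
      have h6 := h.fr (v := fun j => (v j).1) hv h3 (by
        obtain ⟨j1, hj1⟩ := hj
        exact ⟨j1, congrArg Subtype.val hj1⟩) (fun j => by
          rcases hC j with h7 | h7 | h7
          · exact Or.inl (congrArg Subtype.val h7)
          · exact Or.inr (Or.inl h7)
          · right
            right
            have : (v j).1 ≤ C.sup fun t => t.1 :=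
              Finset.le_sup (f := fun t : TT M R N x0 Γ => t.1) h7
            show (v j).1 < k
            omega) j
      rcases h6 with h6 | ⟨p, hp, h6⟩
      · exact Or.inl (Subtype.ext h6)
      · right
        rw [h4, Finset.mem_image] at hp
        obtain ⟨r, hr, rfl⟩ := hp
        exact ⟨r, hr, Subtype.ext h6⟩

end Pool.Agent.TH783.HA
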