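import Pool.Agent.TH783.HA.Main
import Pool.Agent.H579R3.SB

set_option autoImplicit false

/-! The case in which only constant tuples are related. -/

namespace Pool.Agent.TH783.HA

open Set MeasureTheory
open Pool.Agent.W889.VC (BP)

variable {a : ℕ → ℕ} {M : St a ℕ}

/-- `k` elements with the properties of `x` -/
def Cnt (M : St a ℕ) (A : ℕ → Bool) (x k : ℕ) (b : Bool) : Prop :=
  ∃ s : Finset ℕ, s.card = k ∧ ∀ u ∈ s, (∀ i, (M i fun _ => u) ↔ M i fun _ => x) ∧ A u = b

/-- two subsets of `ℕ` with finite subsets of the same sizes -/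
theorem equiv_of_cnt {X Y : Set ℕ}
    (h : ∀ k, (∃ s : Finset ℕ, s.card = k ∧ ∀ u ∈ s, u ∈ X) ↔
      ∃ s : Finset ℕ, s.card = k ∧ ∀ u ∈ s, u ∈ Y) : Nonempty (X ≃ Y) := by
  classical
  have key : ∀ {X Y : Set ℕ}, (∀ k, (∃ s : Finset ℕ, s.card = k ∧ ∀ u ∈ s, u ∈ X) →
      ∃ s : Finset ℕ, s.card = k ∧ ∀ u ∈ s, u ∈ Y) → ∀ hY : Y.Finite, X.Finite ∧
        ∀ hX : X.Finite, hX.toFinset.card ≤ hY.toFinset.card := by
    intro X Y h hY
    have h1 : ∀ s : Finset ℕ, (∀ u ∈ s, u ∈ X) → s.card ≤ hY.toFinset.card := by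
      intro s hs
      obtain ⟨t, h2, h3⟩ := h s.card ⟨s, rfl, hs⟩
      rw [← h2]
      exact Finset.card_le_card fun u hu => hY.mem_toFinset.2 (h3 u hu)
    refine ⟨?_, fun hX => h1 _ fun u hu => hX.mem_toFinset.1 hu⟩
    by_contra hX
    obtain ⟨s, h2, h3⟩ := (show X.Infinite from hX).exists_subset_card_eq (hY.toFinset.card + 1)
    have := h1 s fun u hu => h2 hu
    omega
  by_cases hY : Y.Finite
  · obtain ⟨hX, h1⟩ := key (fun k => (h k).1) hY
    have h2 := (key (fun k => (h k).2) hX).2 hY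
    have h3 := le_antisymm (h1 hX) h2
    have : Fintype X := hX.fintype
    have : Fintype Y := hY.fintype
    refine ⟨Fintype.equivOfCardEq ?_⟩
    rw [← Set.toFinset_card, ← Set.toFinset_card, ← Finite.toFinset_eq_toFinset hX,
      ← Finite.toFinset_eq_toFinset hY]
    exact h3
  · have hX : ¬ X.Finite := fun hX => hY (key (fun k => (h k).2) hX).1
    have : Infinite X := infinite_coe_iff.2 hX
    have : Infinite Y := infinite_coe_iff.2 hY
    exact nonempty_equiv_of_countable

theorem orb_iff (hn : ∀ (i : ℕ) (v : Fin (a i) → ℕ), M i v → ∀ j k, v j = v k)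
    (A B : ℕ → Bool) : Orb M A B ↔ ∀ x k b, Cnt M A x k b ↔ Cnt M B x k b := by
  classical
  constructor
  · have key : ∀ A B : ℕ → Bool, Orb M A B → ∀ x k b, Cnt M A x k b → Cnt M B x k b := by
      rintro A B ⟨σ, h1, h2⟩ x k b ⟨s, h3, h4⟩
      refine ⟨s.map σ.toEmbedding, by rw [Finset.card_map, h3], fun u hu => ?_⟩
      rw [Finset.mem_map] at hu
      obtain ⟨t, ht, rfl⟩ := hu
      refine ⟨fun i => ?_, ?_⟩
      · rw [← (h4 t ht).1 i]
        exact h1 i fun _ => t
      · rw [← (h4 t ht).2]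
        exact h2 t
    intro h x k b
    exact ⟨key A B h x k b, key B A h.symm x k b⟩
  · intro h
    obtain ⟨ι, hι⟩ := Pool.Agent.TH783.FC.fib_equiv (C := (ℕ → Prop) × Bool)
      (fun u : ℕ => (fun i => M i fun _ => u, A u)) (fun u : ℕ => (fun i => M i fun _ => u, B u))
      fun c => by
        obtain ⟨c, b⟩ := c
        refine equiv_of_cnt (X := {u | ((fun i => M i fun _ => u, A u) : (ℕ → Prop) × Bool) =
          (c, b)}) (Y := {u | ((fun i => M i fun _ => u, B u) : (ℕ → Prop) × Bool) = (c, b)})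
          fun k => ?_
        have key : ∀ (A : ℕ → Bool) (x : ℕ), (fun i => M i fun _ => x) = c →
            ∀ u, (((fun i => M i fun _ => u, A u) : (ℕ → Prop) × Bool) = (c, b) ↔
              (∀ i, (M i fun _ => u) ↔ M i fun _ => x) ∧ A u = b) := by
          intro A x hx u
          rw [← hx, Prod.mk.injEq]
          refine and_congr ⟨fun h i => iff_of_eq (congrFun h i), fun h => ?_⟩ Iff.rfl
          funext i
          exact propext (h i)
        by_cases hc : ∃ x, (fun i => M i fun _ => x) = c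
        · obtain ⟨x, hx⟩ := hc
          have h1 := h x k b
          unfold Cnt at h1
          simp only [Set.mem_ofPred_eq, key A x hx, key B x hx]
          exact h1
        · have h2 : ∀ A : ℕ → Bool, ∀ u,
              ¬ ((fun i => M i fun _ => u, A u) : (ℕ → Prop) × Bool) = (c, b) := by
            intro A u h3
            exact hc ⟨u, (Prod.mk.injEq _ _ _ _ ▸ h3 :).1⟩
          simp only [Set.mem_ofPred_eq, h2]
    refine ⟨ι, fun i v => ?_, fun n => (Prod.mk.inj (hι n)).2⟩
    by_cases hcon : ∀ j k, v j = v k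
    · rcases isEmpty_or_nonempty (Fin (a i)) with hi | ⟨⟨j0⟩⟩
      · have : (fun j => ι (v j)) = v := funext fun j => hi.elim j
        rw [this]
      · have e1 : v = fun _ => v j0 := funext fun j => hcon j j0
        rw [e1]
        exact iff_of_eq (congrFun (Prod.mk.inj (hι (v j0))).1 i)
    · constructor
      · intro h1
        exact absurd (fun j k => ι.injective (hn i _ h1 j k)) hcon
      · intro h1
        exact absurd (hn i _ h1) hcon

theorem bp_cnt {Y : Type} [MeasurableSpace Y] {f : Y → ℕ → Bool} (hf : Measurable f)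
    (x k : ℕ) (b : Bool) : BP fun y => Cnt M (f y) x k b := by
  refine BP.ex fun s => (BP.const _).and <| BP.all fun u => (BP.const _).imp <|
    (BP.const _).and ?_
  have h : Measurable fun y => f y u := (measurable_pi_apply u).comp hf
  exact h (measurableSet_singleton b)

theorem dich_triv (hn : ∀ (i : ℕ) (v : Fin (a i) → ℕ), M i v → ∀ j k, v j = v k)
    (B : Set (ℕ → Bool)) (hB : MeasurableSet B) :
    (∃ f : ℕ → ℕ → Bool, ∀ x ∈ B, ∃ n, Orb M (f n) x) ∨
    ∃ f : (ℕ → Bool) → ℕ → Bool, Measurable f ∧ (∀ c, f c ∈ B) ∧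
      ∀ c d, c ≠ d → ¬ Orb M (f c) (f d) := by
  have hE : Equivalence (Orb M) := by
    refine ⟨fun A => ?_, fun h => h.symm, fun h h' => ?_⟩
    · rw [orb_iff hn]
      exact fun _ _ _ => Iff.rfl
    · rw [orb_iff hn] at *
      exact fun x k b => (h x k b).trans (h' x k b)
  have hm : MeasurableSet {q : (ℕ → Bool) × (ℕ → Bool) | Orb M q.1 q.2} := by
    have h1 : BP fun q : (ℕ → Bool) × (ℕ → Bool) => ∀ x k b,
        Cnt M q.1 x k b ↔ Cnt M q.2 x k b :=
      BP.all fun x => BP.all fun k => BP.all fun b =>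
        (bp_cnt measurable_fst x k b).iff (bp_cnt measurable_snd x k b)
    exact h1.congr fun q => (orb_iff hn q.1 q.2).symm
  have hp1 : SecondCountableTopology (ℕ → Bool) := inferInstance
  have hp3 : TopologicalSpace.IsCompletelyMetrizableSpace (ℕ → Bool) := inferInstance
  have hp : PolishSpace (ℕ → Bool) := inferInstance
  rcases Pool.Agent.H579R3.SV.silver hE hm hB.analyticSet with ⟨S, h1, h2, h3⟩ | ⟨h, h1, h2, h3⟩
  · left
    by_cases hS : S.Nonempty
    · obtain ⟨f, hf⟩ := h2.exists_eq_range hS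
      refine ⟨f, fun x hx => ?_⟩
      obtain ⟨y, hy, hxy⟩ := h3 x hx
      rw [hf] at hy
      obtain ⟨n, rfl⟩ := hy
      exact ⟨n, hxy.symm⟩
    · refine ⟨fun _ _ => false, fun x hx => ?_⟩
      obtain ⟨y, hy, -⟩ := h3 x hx
      exact absurd ⟨y, hy⟩ hS
  · right
    exact ⟨h, h1.measurable, h2, h3⟩

end Pool.Agent.TH783.HA
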