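import Pool.Agent.TH783.HA.Link

set_option autoImplicit false

/-! Sets `P` with all types of finite support, except for some; extension of isomorphisms. -/

namespace Pool.Agent.TH783.HA

open Set

variable {a : ℕ → ℕ} {M : St a ℕ} {T : Type} {Q : St a T} {P : T → Prop}

/-- the type `w` over `F` is allowed -/
def Okay (M : St a ℕ) (x0 : ℕ) (Q : St a T) (P : T → Prop) (F : Finset (T × ℕ)) (w : ℕ) : Prop :=
  ∀ p ∈ F, ∀ q ∈ F, P p.1 → P q.1 → Ty M Q x0 p.1 → Ty M Q x0 q.1 →
    Pr M (fun m => ∃ r ∈ F, P r.1 ∧ r.2 = m) w p.2 q.2 → Ed Q P p.1 q.1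

/-- `y` is free from the elements of `P` and `C`, except for those in `F` -/
def Fr (Q : St a T) (P : T → Prop) (C : Finset T) (F : Finset (T × ℕ)) (y : T) : Prop :=
  ∀ (i : ℕ) (v : Fin (a i) → T), Q i v → (∃ j, v j = y) → (∀ j, v j = y ∨ P (v j) ∨ v j ∈ C) →
    ∀ j, v j = y ∨ ∃ p ∈ F, p.1 = v j

/-- all allowed types of finite support are realized -/
structure WW (M : St a ℕ) (x0 : ℕ) (Q : St a T) (P : T → Prop) : Prop where
  tr : ∀ (i : ℕ) (v : Fin (a i) → T), Q i v → (∀ j, P (v j)) → ∀ j k, v j = v k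
  inf : ∀ (x : ℕ) (B : Finset T), ∃ p, p ∉ B ∧ P p ∧ Ty M Q x p
  fin : ∀ B : Finset T, ∃ C : Finset T, ∀ (i : ℕ) (v : Fin (a i) → T), Q i v →
    (∀ j, P (v j) ∨ v j ∈ B) → (∃ j k, v j ≠ v k) → ∀ j, v j ∈ B ∨ v j ∈ C
  ext : ∀ (F : Finset (T × ℕ)) (w : ℕ), PI M Q F → (∀ p ∈ F, p.2 ≠ w) → Okay M x0 Q P F w →
    ∀ C : Finset T, ∃ y, ¬ P y ∧ y ∉ C ∧ (∃ G, F ⊆ G ∧ (y, w) ∈ G ∧ PI M Q G) ∧ Fr Q P C F y

theorem ty_iff {x : ℕ} {p : T} : Ty M Q x p ↔
    ∀ i, (Q i fun _ => p) ↔ M i fun _ => x := by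
  constructor
  · intro h i
    exact h.2 i (fun _ => (p, x)) fun _ => Finset.mem_singleton_self _
  · intro h
    refine ⟨fun r hr s hs => ?_, fun i v hv => ?_⟩
    · rw [Finset.mem_singleton] at hr hs
      rw [hr, hs]
      exact ⟨fun _ => rfl, fun _ => rfl⟩
    · have h1 : v = fun _ => (p, x) := funext fun j => Finset.mem_singleton.1 (hv j)
      rw [h1]
      exact h i

section ext

variable {N N' : ℕ → Prop}

/-- the first coordinate -/
def Lf : {n // N n} ⊕ ({n // ¬ N n} × {n // ¬ N' n}) → ℕ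
  | Sum.inl c => c
  | Sum.inr b => b.1

/-- the second coordinate -/
def Rt (π : {n // N n} ≃ {n // N' n}) : {n // N n} ⊕ ({n // ¬ N n} × {n // ¬ N' n}) → ℕ
  | Sum.inl c => π c
  | Sum.inr b => b.2

/-- partial isomorphisms -/
def Good (M : St a ℕ) (π : {n // N n} ≃ {n // N' n})
    (F : Finset ({n // ¬ N n} × {n // ¬ N' n})) : Prop :=
  (∀ p ∈ F, ∀ q ∈ F, (p.1 = q.1 ↔ p.2 = q.2)) ∧
    ∀ (i : ℕ) (v : Fin (a i) → {n // N n} ⊕ ({n // ¬ N n} × {n // ¬ N' n})),
      (∀ j b, v j = Sum.inr b → b ∈ F) → ((M i fun j => Lf (v j)) ↔ M i fun j => Rt π (v j))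

theorem good_step {x0 : ℕ} (h : WW M x0 M N) (h' : WW M x0 M N') (π : {n // N n} ≃ {n // N' n})
    (hty : ∀ p : {n // N n}, ∀ i, (M i fun _ => (π p : ℕ)) ↔ M i fun _ => (p : ℕ))
    (hed : ∀ p q : {n // N n}, Ty M M x0 (p : ℕ) → Ty M M x0 (q : ℕ) → Ed M N (p : ℕ) q →
      Ed M N' (π p : ℕ) (π q))
    {F : Finset ({n // ¬ N n} × {n // ¬ N' n})} (hF : Good M π F) (x : {n // ¬ N n}) :
    ∃ y, ∃ G, F ⊆ G ∧ (x, y) ∈ G ∧ Good M π G := by
  classical
  by_cases hx : ∃ b ∈ F, b.1 = x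
  · obtain ⟨b, hb, rfl⟩ := hx
    exact ⟨b.2, F, subset_rfl, hb, hF⟩
  push Not at hx
  let B : Finset ℕ := insert x.1 (F.image fun b => b.1.1)
  have hB : ∀ n ∈ B, ¬ N n := by
    intro n hn
    rw [Finset.mem_insert, Finset.mem_image] at hn
    rcases hn with rfl | ⟨b, -, rfl⟩
    · exact x.2
    · exact b.1.2
  obtain ⟨C, hC⟩ := h.fin B
  have hfin : {z : {n // N n} ⊕ ({n // ¬ N n} × {n // ¬ N' n}) |
      (∀ b, z = Sum.inr b → b ∈ F) ∧ ∀ c : {n // N n}, z = Sum.inl c → c.1 ∈ C}.Finite := by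
    refine ((F.image Sum.inr ∪ (C.subtype N).image Sum.inl).finite_toSet).subset ?_
    rintro (c | b) ⟨h1, h2⟩
    · have h3 := h2 c rfl
      rw [Finset.mem_coe, Finset.mem_union]
      right
      exact Finset.mem_image_of_mem _ (Finset.mem_subtype.2 h3)
    · rw [Finset.mem_coe, Finset.mem_union]
      left
      exact Finset.mem_image_of_mem _ (h1 b rfl)
  let G0 : Finset (ℕ × ℕ) := hfin.toFinset.image fun z => (Rt π z, Lf z)
  have hG0 : ∀ r, r ∈ G0 ↔ ∃ z : {n // N n} ⊕ ({n // ¬ N n} × {n // ¬ N' n}),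
      (∀ b, z = Sum.inr b → b ∈ F) ∧ (∀ c : {n // N n}, z = Sum.inl c → c.1 ∈ C) ∧
        (Rt π z, Lf z) = r := by
    intro r
    show r ∈ hfin.toFinset.image _ ↔ _
    rw [Finset.mem_image]
    constructor
    · rintro ⟨z, hz, h1⟩
      rw [Set.Finite.mem_toFinset] at hz
      exact ⟨z, hz.1, hz.2, h1⟩
    · rintro ⟨z, h1, h2, h3⟩
      exact ⟨z, (Set.Finite.mem_toFinset _).2 ⟨h1, h2⟩, h3⟩
  have hinj : ∀ z z' : {n // N n} ⊕ ({n // ¬ N n} × {n // ¬ N' n}), (∀ b, z = Sum.inr b → b ∈ F) →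
      (∀ b, z' = Sum.inr b → b ∈ F) → (Rt π z = Rt π z' ↔ Lf z = Lf z') := by
    rintro (c | b) (c' | b') h1 h2
    · show ((π c : ℕ) = π c' ↔ (c : ℕ) = c')
      rw [← Subtype.ext_iff, ← Subtype.ext_iff, π.apply_eq_iff_eq]
    · show ((π c : ℕ) = b'.2 ↔ (c : ℕ) = b'.1)
      constructor
      · intro h3
        exact absurd (h3 ▸ (π c).2) b'.2.2
      · intro h3
        exact absurd (h3 ▸ c.2) b'.1.2
    · show ((b.2 : ℕ) = π c' ↔ (b.1 : ℕ) = c')
      constructor
      · intro h3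
        exact absurd (h3 ▸ (π c').2) b.2.2
      · intro h3
        exact absurd (h3 ▸ c'.2) b.1.2
    · show ((b.2 : ℕ) = b'.2 ↔ (b.1 : ℕ) = b'.1)
      rw [← Subtype.ext_iff, ← Subtype.ext_iff]
      exact (hF.1 b (h1 b rfl) b' (h2 b' rfl)).symm
  have hpi : PI M M G0 := by
    refine ⟨fun p hp q hq => ?_, fun i v hv => ?_⟩
    · obtain ⟨z, h1, -, rfl⟩ := (hG0 p).1 hp
      obtain ⟨z', h2, -, rfl⟩ := (hG0 q).1 hq
      exact hinj z z' h1 h2
    · have h1 : ∀ j, ∃ z : {n // N n} ⊕ ({n // ¬ N n} × {n // ¬ N' n}),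
          (∀ b, z = Sum.inr b → b ∈ F) ∧ (Rt π z, Lf z) = v j := fun j => by
        obtain ⟨z, h1, -, h2⟩ := (hG0 _).1 (hv j)
        exact ⟨z, h1, h2⟩
      choose z hz1 hz2 using h1
      have h3 := hF.2 i z hz1
      have e1 : (fun j => (v j).1) = fun j => Rt π (z j) := funext fun j => by rw [← hz2]
      have e2 : (fun j => (v j).2) = fun j => Lf (z j) := funext fun j => by rw [← hz2]
      rw [e1, e2]
      exact h3.symm
  have hxG : ∀ r ∈ G0, r.2 ≠ x.1 := by
    intro r hr he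
    obtain ⟨z, h1, -, rfl⟩ := (hG0 r).1 hr
    rcases z with c | b
    · exact x.2 (he ▸ c.2)
    · exact hx b (h1 b rfl) (Subtype.ext he)
  -- elements of `G0` in `N'`
  have hin : ∀ r ∈ G0, N' r.1 → ∃ c : {n // N n}, c.1 ∈ C ∧ r = ((π c : ℕ), (c : ℕ)) := by
    intro r hr hN
    obtain ⟨z, h1, h2, rfl⟩ := (hG0 r).1 hr
    rcases z with c | b
    · exact ⟨c, h2 c rfl, rfl⟩
    · exact absurd hN b.2.2
  have hin' : ∀ c : {n // N n}, c.1 ∈ C → ((π c : ℕ), (c : ℕ)) ∈ G0 := by
    intro c hc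
    refine (hG0 _).2 ⟨Sum.inl c, fun b hb => ?_, fun c' hc' => ?_, rfl⟩
    · cases hb
    · cases hc'
      exact hc
  have hcmp : Cmp M (fun m => ∃ r ∈ G0, N' r.1 ∧ r.2 = m) M N
      {m | m = x.1 ∨ ∃ r ∈ G0, N' r.1 ∧ r.2 = m} id x.1 := by
    refine ⟨Function.injective_id.injOn, fun i v _ => Iff.rfl, Or.inl rfl, ?_, ?_, ?_⟩
    · rintro t (rfl | ⟨r, h1, h2, rfl⟩)
      · constructor
        · rintro ⟨r, h1, h2, h3⟩
          exact absurd h3 (hxG r h1)
        · intro h1
          exact absurd h1 x.2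
      · obtain ⟨c, h3, rfl⟩ := hin r h1 h2
        exact ⟨fun _ => c.2, fun _ => ⟨_, h1, h2, rfl⟩⟩
    · intro E hE y hy
      exact Or.inr (hE.2.1 y hy)
    · rintro E ⟨-, h1, i, v, h2, h3⟩ y hy
      have hyx : y ≠ x.1 := fun he => x.2 (he ▸ h1 y hy)
      obtain ⟨j1, hj1⟩ := (h3 y).2 (Or.inr hy)
      obtain ⟨j2, hj2⟩ := (h3 x.1).2 (Or.inl rfl)
      have h4 := hC i v h2 (fun j => by
        rcases (h3 (v j)).1 ⟨j, rfl⟩ with h4 | h4
        · right
          rw [h4]
          exact Finset.mem_insert_self _ _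
        · exact Or.inl (h1 _ h4)) ⟨j1, j2, by rw [hj1, hj2]; exact hyx⟩ j1
      rw [hj1] at h4
      have h5 : y ∈ C := h4.resolve_left fun h6 => hB y h6 (h1 y hy)
      exact ⟨y, Or.inr ⟨_, hin' ⟨y, h1 y hy⟩ h5, (π ⟨y, h1 y hy⟩).2, rfl⟩, rfl⟩
  have hok : Okay M x0 M N' G0 x.1 := by
    intro r hr s hs hr' hs' ht ht' hpr
    obtain ⟨c, h1, rfl⟩ := hin r hr hr'
    obtain ⟨d, h2, rfl⟩ := hin s hs hs'
    have h3 : Pr M N x.1 (c : ℕ) d :=
      (hcmp.pr_iff (Or.inr ⟨_, hr, hr', rfl⟩) (Or.inr ⟨_, hs, hs', rfl⟩)).1 hpr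
    refine hed c d (ty_iff.2 fun i => ?_) (ty_iff.2 fun i => ?_) ⟨c.2, d.2, x.1, x.2, h3⟩
    · rw [← hty c i]
      exact ty_iff.1 ht i
    · rw [← hty d i]
      exact ty_iff.1 ht' i
  obtain ⟨y, hy1, hy2, ⟨G, hG1, hG2, hG3⟩, hy4⟩ := h'.ext G0 x.1 hpi hxG hok (G0.image Prod.fst)
  refine ⟨⟨y, hy1⟩, insert (x, ⟨y, hy1⟩) F, Finset.subset_insert _ _, Finset.mem_insert_self _ _,
    ?_, ?_⟩
  · have hyF : ∀ b ∈ F, b.2.1 ≠ y := by
      intro b hb he
      refine hy2 ?_
      rw [← he]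
      refine Finset.mem_image.2 ⟨((b.2 : ℕ), (b.1 : ℕ)), (hG0 _).2 ⟨Sum.inr b, ?_, ?_, rfl⟩, rfl⟩
      · intro b' hb'
        cases hb'
        exact hb
      · intro c hc
        cases hc
    intro p hp q hq
    rw [Finset.mem_insert] at hp hq
    rcases hp with rfl | hp <;> rcases hq with rfl | hq
    · exact ⟨fun _ => rfl, fun _ => rfl⟩
    · exact ⟨fun he => absurd he.symm (hx q hq),
        fun he => absurd (congrArg Subtype.val he).symm (hyF q hq)⟩
    · exact ⟨fun he => absurd he (hx p hp),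
        fun he => absurd (congrArg Subtype.val he) (hyF p hp)⟩
    · exact hF.1 p hp q hq
  · intro i v hv
    by_cases hA : ∃ j0, v j0 = Sum.inr (x, ⟨y, hy1⟩)
    · obtain ⟨j0, hj0⟩ := hA
      have hL0 : Lf (v j0) = x.1 := by
        rw [hj0]
        rfl
      have hR0 : Rt π (v j0) = y := by
        rw [hj0]
        rfl
      by_cases hBc : ∀ j (c : {n // N n}), v j = Sum.inl c → c.1 ∈ C
      · have hvG : ∀ j, (Rt π (v j), Lf (v j)) ∈ G := by
          intro j
          by_cases hj : v j = Sum.inr (x, ⟨y, hy1⟩)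
          · rw [hj]
            exact hG2
          · refine hG1 ((hG0 _).2 ⟨v j, fun b hb => ?_, hBc j, rfl⟩)
            have h1 := hv j b hb
            rw [Finset.mem_insert] at h1
            rcases h1 with rfl | h1
            · exact absurd hb hj
            · exact h1
        exact (hG3.2 i (fun j => (Rt π (v j), Lf (v j))) hvG).symm
      · push Not at hBc
        obtain ⟨j1, c, hj1, hc⟩ := hBc
        have hL1 : Lf (v j1) = c.1 := by
          rw [hj1]
          rfl
        have hR1 : Rt π (v j1) = (π c : ℕ) := by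
          rw [hj1]
          rfl
        constructor
        · intro h1
          exfalso
          have h2 := hC i _ h1 (fun j => by
            rcases hvj : v j with c' | b
            · exact Or.inl c'.2
            · right
              have h3 := hv j b hvj
              rw [Finset.mem_insert] at h3
              rcases h3 with rfl | h3
              · exact Finset.mem_insert_self _ _
              · exact Finset.mem_insert_of_mem
                  (Finset.mem_image_of_mem (fun b : {n // ¬ N n} × {n // ¬ N' n} => b.1.1) h3))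
            ⟨j0, j1, by
              show Lf (v j0) ≠ Lf (v j1)
              rw [hL0, hL1]
              intro he
              exact x.2 (he ▸ c.2)⟩ j1
          have h3 : c.1 ∈ B ∨ c.1 ∈ C := by
            rw [← hL1]
            exact h2
          rcases h3 with h3 | h3
          · exact hB _ h3 c.2
          · exact hc h3
        · intro h1
          exfalso
          have h2 := hy4 i _ h1 ⟨j0, hR0⟩ (fun j => by
            rcases hvj : v j with c' | b
            · exact Or.inr (Or.inl (π c').2)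
            · have h3 := hv j b hvj
              rw [Finset.mem_insert] at h3
              rcases h3 with rfl | h3
              · exact Or.inl rfl
              · right
                right
                refine Finset.mem_image.2 ⟨((b.2 : ℕ), (b.1 : ℕ)),
                  (hG0 _).2 ⟨Sum.inr b, ?_, ?_, rfl⟩, rfl⟩
                · intro b' hb'
                  cases hb'
                  exact h3
                · intro c hc
                  cases hc) j1
          rcases h2 with h2 | ⟨r, hr, h2⟩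
          · have h3 : (π c : ℕ) = y := by
              rw [← hR1]
              exact h2
            exact hy1 (h3 ▸ (π c).2)
          · have h3 : r.1 = (π c : ℕ) := by
              rw [← hR1]
              exact h2
            obtain ⟨c', h4, rfl⟩ := hin r hr (by rw [h3]; exact (π c).2)
            have h5 : π c' = π c := Subtype.ext h3
            rw [π.apply_eq_iff_eq] at h5
            rw [h5] at h4
            exact hc h4
    · push Not at hA
      refine hF.2 i v fun j b hb => ?_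
      have h1 := hv j b hb
      rw [Finset.mem_insert] at h1
      rcases h1 with rfl | h1
      · exact absurd hb (hA j)
      · exact h1

end ext

end Pool.Agent.TH783.HA
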